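import Pool.Agent.Y728.HY.Good
import Pool.Agent.Y729.RV.Base
import Pool.Agent.Y729.AE.Ext

set_option autoImplicit false

/-!
# Hyperelliptic curves with rational Weierstrass points: Szpiro's inequality for all twists over all
extensions of the number field (helper728)
-/

namespace Pool.Agent.Y728.HY

open Finset NumberField IsDedekindDomain WithZero Height Pool.Agent.W318 Pool.Agent.TH905.HS
open Pool.Agent.H691R3 (fv Nv two_le_Nv fv_support_finite)
open Pool.Agent.H951R3.V (ell ell_pos)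
open Pool.Agent.Y728.MN (lamF lamF_nonneg wt pt Nr nn bd bd_fin nn_eq wt_mono wt_union_le Meet
  meet_iff meet_over pt_map)
open Pool.Agent.TH876.KR (form)

variable {m n g : ℕ}

section

variable {L : Type} [Field L] [NumberField L]

/-- the primes above `2` -/
theorem two_sum (t : HeightOneSpectrum (𝓞 L) → ℕ)
    (ht : ∀ v, v.valuation L (2 : L) = exp (-(t v : ℤ))) (R : Finset (HeightOneSpectrum (𝓞 L))) :
    ∑ v ∈ R, (t v : ℝ) * ell v ≤ totalWeight L * Real.log 2 := by
  have h1 : (1 : L) ≠ -1 := by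
    intro h
    have : (2 : L) = 0 := by linear_combination h
    exact two_ne_zero this
  have h2 := sum_lam_le h1 R
  rw [logHeight₁_neg, logHeight₁_one, add_zero, zero_add] at h2
  refine le_trans (le_of_eq (Finset.sum_congr rfl fun v _ => ?_)) h2
  unfold Pool.Agent.Y728.MN.lamF
  have e1 : (1 : L) - -1 = 2 := by ring
  rw [e1, map_neg_eq_map, map_one, max_self, one_mul, fv_of_exp v (ht v), zpow_neg, one_div,
    inv_inv, Real.log_zpow]
  push_cast
  rfl

theorem wt_two_le : wt (finite_two L).toFinset ≤ totalWeight L * Real.log 2 := by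
  choose t ht using fun v : HeightOneSpectrum (𝓞 L) => exists_two_exp v
  refine le_trans (Finset.sum_le_sum fun v hv => ?_) (two_sum t ht (finite_two L).toFinset)
  have h1 : v.valuation L (2 : L) ≠ 1 := by
    rw [Set.Finite.mem_toFinset] at hv
    exact hv
  have h2 : 1 ≤ t v := by
    by_contra hcon
    apply h1
    have : t v = 0 := by omega
    rw [ht v, this]
    simp
  have h3 : (1 : ℝ) ≤ (t v : ℝ) := by exact_mod_cast h2
  have h4 := mul_le_mul_of_nonneg_right h3 (ell_pos v).le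
  rw [one_mul] at h4
  exact h4

/-- **the upper bound for the discriminant**, with a constant which is linear in the degree -/
theorem log_disc_up_lin (hm : m = 2 * g + 1) (hg : 1 ≤ g) {e : Fin m → L}
    (he : Function.Injective e) {d : L} (hd : d ≠ 0) :
    Real.log (discNorm g (pol d e)) ≤ 2 * m * Real.log (badNorm g (pol d e)) +
      2 * m * ∑ i, logHeight₁ (e i) + (4 * g + m * m) * (totalWeight L * Real.log 2) := by
  classical
  choose t ht using fun v : HeightOneSpectrum (𝓞 L) => exists_two_exp v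
  obtain ⟨Bd, hBd⟩ : ∃ Bd, Bd = (finite_bad (pol_isHyp hm hd he)).toFinset := ⟨_, rfl⟩
  have h1 := log_disc hm hd he
  have h2 := log_bad hm hd he
  rw [← hBd] at h1 h2
  have h3 : ∑ v ∈ Bd, (minExp g (pol d e) v : ℝ) * ell v ≤
      ∑ v ∈ Bd, ((4 * g * t v + 2 * m) * ell v + Lv v e) :=
    Finset.sum_le_sum fun v _ => minExp_up hm hd he v (ht v) hg
  have h4 : ∑ v ∈ Bd, ((4 * g * t v + 2 * m) * ell v + Lv v e) =
      4 * g * ∑ v ∈ Bd, (t v : ℝ) * ell v + 2 * m * wt Bd + ∑ v ∈ Bd, Lv v e := by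
    unfold wt
    rw [Finset.mul_sum, Finset.mul_sum, ← Finset.sum_add_distrib, ← Finset.sum_add_distrib]
    refine Finset.sum_congr rfl fun v _ => ?_
    ring
  have h5 := sum_Lv_le he Bd
  have h6 := mul_le_mul_of_nonneg_left (two_sum t ht Bd) (by positivity : (0 : ℝ) ≤ 4 * g)
  rw [h1, h2]
  linarith

end

/-- **the bad primes over an extension** -/
theorem nn_ext {K : Type} [Field K] [NumberField K] {l : Fin n → K}
    (h : ∀ i, l i ≠ 0 ∧ l i ≠ 1) (hl : Function.Injective l) (L : Type) [Field L] [NumberField L]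
    [Algebra K L] :
    (Module.finrank K L : ℝ) * (Real.log |(discr K : ℝ)| +
      nn (∅ : Set (HeightOneSpectrum (𝓞 K))) (P3 K) l) ≤ Real.log |(discr L : ℝ)| +
        nn (∅ : Set (HeightOneSpectrum (𝓞 L))) (P3 L) (fun i => algebraMap K L (l i)) := by
  classical
  have hf : ∀ i j, form (P3 K j) (pt (l i)) ≠ 0 := fun i j =>
    (P3_form (l i) j).2 ⟨fun _ => (h i).1, fun _ => (h i).2⟩
  have hL : ∀ i, algebraMap K L (l i) ≠ 0 ∧ algebraMap K L (l i) ≠ 1 := fun i =>
    ⟨fun h' => (h i).1 ((map_eq_zero _).1 h'), fun h' => (h i).2 ((map_eq_one_iff _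
      (algebraMap K L).injective).1 h')⟩
  have hfL : ∀ i j, form (P3 L j) (pt (algebraMap K L (l i))) ≠ 0 := fun i j =>
    (P3_form (algebraMap K L (l i)) j).2 ⟨fun _ => (hL i).1, fun _ => (hL i).2⟩
  have hlL : Function.Injective fun i => algebraMap K L (l i) :=
    (algebraMap K L).injective.comp hl
  rw [nn_eq _ _ (bd_fin _ _ hf hl), nn_eq _ _ (bd_fin _ _ hfL hlL)]
  refine Pool.Agent.Y729.RV.base_change (k := K) (L := L) _ _ fun v hv w hw => ?_
  rw [Set.Finite.mem_toFinset] at hv ⊢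
  obtain ⟨-, hv⟩ := hv
  refine ⟨Set.notMem_empty w, ?_⟩
  have hP : ∀ j : Fin 3, (fun s => algebraMap K L (P3 K j s)) = P3 L j := by
    intro j
    funext s
    fin_cases j <;> fin_cases s <;> simp [P3]
  rcases hv with ⟨i, j, hN⟩ | ⟨i, k, hik, hN⟩
  · left
    refine ⟨i, j, ?_⟩
    rw [← meet_iff, ← hP j, ← pt_map, meet_over v w, meet_iff]
    exact hN
  · right
    refine ⟨i, k, hik, ?_⟩
    rw [← meet_iff, ← pt_map, ← pt_map, meet_over v w, meet_iff]
    exact hN

/-- **above the threshold**, over all extensions -/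
theorem fail_ext (K : Type) [Field K] [NumberField K] (hg : 2 ≤ g) (hn : n + 2 = 2 * g + 1)
    (κ c : ℝ) (hκ : 4 * g + 4 < κ) (hc : 0 < c) : ∃ ε C₀ : ℝ, 0 < ε ∧ ∀ l : Fin n → K,
      (∀ i, l i ≠ 0 ∧ l i ≠ 1) → Function.Injective l →
      (((3 : ℕ) : ℝ) + n - 1 - ε) * ∑ i, logHeight₁ (l i) ≤
        nn (∅ : Set (HeightOneSpectrum (𝓞 K))) (P3 K) l + C₀ →
      ∀ (L : Type) [Field L] [NumberField L] [Algebra K L] (d : L), d ≠ 0 →
        (discNorm g (pol d (cfg fun i => algebraMap K L (l i))) : ℝ) ≤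
          c ^ Module.finrank K L * (|(discr L : ℝ)| / |(discr K : ℝ)| ^ Module.finrank K L *
            (badNorm g (pol d (cfg fun i => algebraMap K L (l i))) : ℝ)) ^ κ := by
  obtain ⟨M, hM⟩ : ∃ M : ℝ, M = ((n + 2 : ℕ) : ℝ) := ⟨_, rfl⟩
  have hM2 : M = 2 * g + 1 := by
    rw [hM]
    exact_mod_cast hn
  have hMn : M = n + 2 := by
    rw [hM]
    push_cast
    ring
  have hM0 : 0 < M := by
    rw [hM2]
    positivity
  obtain ⟨s, hs⟩ : ∃ s : ℝ, s = κ - 2 * M - 2 := ⟨_, rfl⟩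
  have hs0 : 0 < s := by
    rw [hs, hM2]
    linarith
  obtain ⟨D, hD⟩ : ∃ D : ℝ, D = (Module.finrank ℚ K : ℝ) * Real.log 2 := ⟨_, rfl⟩
  obtain ⟨ε, hε⟩ : ∃ ε : ℝ, ε = s * M / (2 + s) := ⟨_, rfl⟩
  have h2s : (0 : ℝ) < 2 + s := by linarith
  have hε0 : 0 < ε := by
    rw [hε]
    positivity
  have hεs : (2 + s) * ε = s * M := by
    rw [hε]
    field_simp
  obtain ⟨C₀, hC₀⟩ : ∃ C₀ : ℝ,
    C₀ = (Real.log c - (4 * g + M * M) * D) / (2 + s) - D := ⟨_, rfl⟩
  have hC : (2 + s) * (D + C₀) + (4 * g + M * M) * D = Real.log c := by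
    rw [hC₀]
    field_simp
    ring
  refine ⟨ε, C₀, hε0, fun l hl hinj h L _ _ _ d hd => ?_⟩
  have hlL : ∀ i, algebraMap K L (l i) ≠ 0 ∧ algebraMap K L (l i) ≠ 1 := fun i =>
    ⟨fun h' => (hl i).1 ((map_eq_zero _).1 h'), fun h' => (hl i).2 ((map_eq_one_iff _
      (algebraMap K L).injective).1 h')⟩
  have hinjL : Function.Injective fun i => algebraMap K L (l i) :=
    (algebraMap K L).injective.comp hinj
  have he := cfg_inj hlL hinjL
  have hfd : FiniteDimensional K L := Module.Finite.of_restrictScalars_finite ℚ K L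
  obtain ⟨r, hr⟩ : ∃ r : ℝ, r = (Module.finrank K L : ℝ) := ⟨_, rfl⟩
  have hr0 : 0 < r := by rw [hr]; exact_mod_cast Module.finrank_pos
  have hTW : (totalWeight L : ℝ) * Real.log 2 = r * D := by
    rw [NumberField.totalWeight_eq_finrank, ← Module.finrank_mul_finrank ℚ K L, hr, hD]
    push_cast
    ring
  have h1 := log_disc_up_lin hn (by omega : 1 ≤ g) he hd
  rw [sum_cfg, ← hM, hTW] at h1
  have h2 := bad_low hg hn hlL hinjL hd
  have h3 := wt_two_le (L := L)
  rw [hTW] at h3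
  have h4 := nn_ext hl hinj L
  obtain ⟨H, hH⟩ : ∃ H : ℝ, H = ∑ i, logHeight₁ (l i) := ⟨_, rfl⟩
  have hHL : ∑ i, logHeight₁ (algebraMap K L (l i)) = r * H := by
    rw [hH, Finset.mul_sum, hr]
    exact Finset.sum_congr rfl fun i _ => Pool.Agent.Y729.AE.ht_ext (l i)
  rw [hHL] at h1
  obtain ⟨b, hb⟩ : ∃ b : ℝ,
    b = Real.log (badNorm g (pol d (cfg fun i => algebraMap K L (l i)))) := ⟨_, rfl⟩
  obtain ⟨N, hN⟩ : ∃ N : ℝ, N = nn (∅ : Set (HeightOneSpectrum (𝓞 K))) (P3 K) l := ⟨_, rfl⟩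
  obtain ⟨lK, hlK⟩ : ∃ lK : ℝ, lK = Real.log |(discr K : ℝ)| := ⟨_, rfl⟩
  obtain ⟨lL, hlL'⟩ : ∃ lL : ℝ, lL = Real.log |(discr L : ℝ)| := ⟨_, rfl⟩
  rw [← hb] at h1 h2
  rw [← hr, ← hN, ← hlK, ← hlL'] at h4
  have e3 : ((3 : ℕ) : ℝ) + n - 1 - ε = M - ε := by
    rw [hMn]
    push_cast
    ring
  rw [← hH, ← hN, e3] at h
  -- the relative discriminant
  have h5 : r * lK ≤ lL := by
    have h6 := Pool.Agent.Y729.RV.base_change (k := K) (L := L) ∅ ∅
      (fun v hv => absurd hv (Finset.notMem_empty v))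
    rw [Finset.sum_empty, Finset.sum_empty, add_zero, add_zero, ← hr, ← hlK, ← hlL'] at h6
    exact h6
  obtain ⟨δ, hδ⟩ : ∃ δ : ℝ, δ = lL - r * lK := ⟨_, rfl⟩
  have hδ0 : 0 ≤ δ := by
    rw [hδ]
    linarith
  have h6 : r * ((M - ε) * H) ≤ b + δ + r * (D + C₀) := by
    have h7 := mul_le_mul_of_nonneg_left h hr0.le
    have e7 : r * (N + C₀) = r * (lK + N) - r * lK + r * C₀ := by ring
    rw [e7] at h7
    have e8 : b + δ + r * (D + C₀) = b + (lL - r * lK) + (r * D + r * C₀) := by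
      rw [hδ]
      ring
    rw [e8]
    linarith
  have h7 := mul_le_mul_of_nonneg_left h6 h2s.le
  have e7 : (2 + s) * (r * ((M - ε) * H)) = 2 * M * (r * H) := by
    have : (2 + s) * (r * ((M - ε) * H)) = r * H * ((2 + s) * M - (2 + s) * ε) := by ring
    rw [this, hεs]
    ring
  rw [e7] at h7
  have h8 : Real.log (discNorm g (pol d (cfg fun i => algebraMap K L (l i)))) ≤
      r * Real.log c + κ * (b + δ) := by
    have e8 : r * Real.log c + κ * (b + δ) = 2 * M * b + (2 + s) * (b + δ + r * (D + C₀)) +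
        (4 * g + M * M) * (r * D) + 2 * M * δ := by
      rw [← hC, hs]
      ring
    have h9 : 0 ≤ 2 * M * δ := by positivity
    rw [e8]
    linarith
  have hb0 := badNorm_pos hn hd he
  have hd0 := discNorm_pos hn hd he
  have hK0 : (0 : ℝ) < |(discr K : ℝ)| := abs_pos.2 (by exact_mod_cast discr_ne_zero K)
  have hL0 : (0 : ℝ) < |(discr L : ℝ)| := abs_pos.2 (by exact_mod_cast discr_ne_zero L)
  rw [← Real.log_le_log_iff hd0 (by positivity), Real.log_mul (by positivity) (by positivity),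
    Real.log_rpow (by positivity), Real.log_mul (by positivity) hb0.ne',
    Real.log_div hL0.ne' (by positivity), Real.log_pow, Real.log_pow, ← hb, ← hr, ← hlK, ← hlL']
  have e9 : κ * (lL - r * lK + b) = κ * (b + δ) := by
    rw [hδ]
    ring
  rw [e9]
  exact h8

end Pool.Agent.Y728.HY
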