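import Pool.Agent.Y728.HY.Glob

set_option autoImplicit false

/-!
# Hyperelliptic curves with rational Weierstrass points: the discriminant and the bad primes of the
twists (helper728)
-/

namespace Pool.Agent.Y728.HY

open Finset NumberField IsDedekindDomain WithZero Height Pool.Agent.W318 Pool.Agent.TH905.HS
open Pool.Agent.H691R3 (fv Nv two_le_Nv fv_support_finite)
open Pool.Agent.H951R3.V (ell ell_pos)
open Pool.Agent.Y728.MN (lamF lamF_nonneg lam_le height_pl wt pt Nr nn bd bd_fin nn_eq form_pt_ne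
  lamF_eq wt_mono wt_union_le)
open Pool.Agent.TH876.KR (form localHeight localHeight_pos_iff m2)

variable {K : Type} [Field K] [NumberField K] {m n g : ℕ}

theorem wt_nonneg (F : Finset (HeightOneSpectrum (𝓞 K))) : 0 ≤ wt F :=
  Finset.sum_nonneg fun v _ => (ell_pos v).le

theorem log_bad (hm : m = 2 * g + 1) {d : K} (hd : d ≠ 0) {e : Fin m → K}
    (he : Function.Injective e) : Real.log (badNorm g (pol d e)) =
      wt (finite_bad (pol_isHyp hm hd he)).toFinset := by
  rw [badNorm_eq (finite_bad (pol_isHyp hm hd he)).toFinset fun v => by simp, Nat.cast_prod,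
    Real.log_prod]
  · rfl
  · intro v _
    exact (lt_of_lt_of_le zero_lt_two (two_le_Nv v)).ne'

theorem log_disc (hm : m = 2 * g + 1) {d : K} (hd : d ≠ 0) {e : Fin m → K}
    (he : Function.Injective e) : Real.log (discNorm g (pol d e)) =
      ∑ v ∈ (finite_bad (pol_isHyp hm hd he)).toFinset, (minExp g (pol d e) v : ℝ) * ell v := by
  rw [discNorm_eq (finite_bad (pol_isHyp hm hd he)).toFinset fun v hv => by simpa using hv,
    Nat.cast_prod, Real.log_prod]
  · refine Finset.sum_congr rfl fun v _ => ?_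
    rw [Nat.cast_pow, Real.log_pow]
    rfl
  · intro v _
    rw [Nat.cast_pow]
    exact pow_ne_zero _ (lt_of_lt_of_le zero_lt_two (two_le_Nv v)).ne'

theorem wt_le_bad (hm : m = 2 * g + 1) {d : K} (hd : d ≠ 0) {e : Fin m → K}
    (he : Function.Injective e) (R : Finset (HeightOneSpectrum (𝓞 K)))
    (hR : ∀ v ∈ R, minExp g (pol d e) v ≠ 0) : wt R ≤ Real.log (badNorm g (pol d e)) := by
  rw [log_bad hm hd he]
  refine wt_mono fun v hv => ?_
  rw [Set.Finite.mem_toFinset]
  exact hR v hv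

theorem bad_le_wt (hm : m = 2 * g + 1) {d : K} (hd : d ≠ 0) {e : Fin m → K}
    (he : Function.Injective e) (R : Finset (HeightOneSpectrum (𝓞 K)))
    (hR : ∀ v, minExp g (pol d e) v ≠ 0 → v ∈ R) : Real.log (badNorm g (pol d e)) ≤ wt R := by
  rw [log_bad hm hd he]
  refine wt_mono fun v hv => ?_
  rw [Set.Finite.mem_toFinset] at hv
  exact hR v hv

theorem sum_le_disc (hm : m = 2 * g + 1) {d : K} (hd : d ≠ 0) {e : Fin m → K}
    (he : Function.Injective e) (R : Finset (HeightOneSpectrum (𝓞 K))) {c : ℝ} (hc : 0 < c)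
    (hR : ∀ v ∈ R, c ≤ (minExp g (pol d e) v : ℝ)) :
    c * wt R ≤ Real.log (discNorm g (pol d e)) := by
  rw [log_disc hm hd he]
  have h1 : c * wt R ≤ ∑ v ∈ R, (minExp g (pol d e) v : ℝ) * ell v := by
    unfold wt
    rw [Finset.mul_sum]
    exact Finset.sum_le_sum fun v hv => mul_le_mul_of_nonneg_right (hR v hv) (ell_pos v).le
  refine h1.trans (Finset.sum_le_sum_of_subset_of_nonneg (fun v hv => ?_) fun v _ _ =>
    mul_nonneg (Nat.cast_nonneg _) (ell_pos v).le)
  rw [Set.Finite.mem_toFinset]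
  intro h0
  have h2 := hR v hv
  have h3 : (minExp g (pol d e) v : ℝ) = 0 := by exact_mod_cast h0
  linarith

/-- **the upper bound for the discriminant** -/
theorem log_disc_up (K : Type) [Field K] [NumberField K] (hm : m = 2 * g + 1) (hg : 1 ≤ g) :
    ∃ c₁ : ℝ, ∀ (e : Fin m → K), Function.Injective e → ∀ d : K, d ≠ 0 →
      Real.log (discNorm g (pol d e)) ≤ 2 * m * Real.log (badNorm g (pol d e)) +
        2 * m * ∑ i, logHeight₁ (e i) + c₁ := by
  classical
  choose t ht using fun v : HeightOneSpectrum (𝓞 K) => exists_two_exp v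
  refine ⟨∑ v ∈ (finite_two K).toFinset, 4 * g * t v * ell v +
    m * m * (totalWeight K * Real.log 2), ?_⟩
  intro e he d hd
  obtain ⟨Bd, hBd⟩ : ∃ Bd, Bd = (finite_bad (pol_isHyp hm hd he)).toFinset := ⟨_, rfl⟩
  have h1 := log_disc hm hd he
  have h2 := log_bad hm hd he
  rw [← hBd] at h1 h2
  have h3 : ∑ v ∈ Bd, (minExp g (pol d e) v : ℝ) * ell v ≤
      ∑ v ∈ Bd, ((4 * g * t v + 2 * m) * ell v + Lv v e) :=
    Finset.sum_le_sum fun v _ => minExp_up hm hd he v (ht v) hg
  have h4 : ∑ v ∈ Bd, ((4 * g * t v + 2 * m) * ell v + Lv v e) =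
      ∑ v ∈ Bd, 4 * g * t v * ell v + 2 * m * wt Bd + ∑ v ∈ Bd, Lv v e := by
    unfold wt
    rw [Finset.mul_sum, ← Finset.sum_add_distrib, ← Finset.sum_add_distrib]
    refine Finset.sum_congr rfl fun v _ => ?_
    ring
  have h5 := sum_Lv_le he Bd
  have h6 : ∑ v ∈ Bd, 4 * g * t v * ell v ≤ ∑ v ∈ (finite_two K).toFinset, 4 * g * t v * ell v := by
    have e1 : ∑ v ∈ Bd, 4 * g * t v * ell v =
        ∑ v ∈ Bd.filter (fun v => v ∈ (finite_two K).toFinset), 4 * g * t v * ell v := by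
      rw [Finset.sum_filter]
      refine Finset.sum_congr rfl fun v _ => ?_
      split_ifs with h
      · rfl
      · have h7 : v.valuation K (2 : K) = 1 := by
          by_contra hne
          exact h ((Set.Finite.mem_toFinset _).mpr hne)
        have h8 := ht v
        rw [h7, ← exp_zero, exp_inj] at h8
        have : t v = 0 := by omega
        rw [this]
        simp
    rw [e1]
    refine Finset.sum_le_sum_of_subset_of_nonneg (fun v hv => (Finset.mem_filter.mp hv).2)
      fun v _ _ => ?_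
    have := (ell_pos v).le
    positivity
  rw [h1, h2]
  linarith

/-- the finite Weierstrass points `0, 1, l_1, …, l_n` -/
def cfg (l : Fin n → K) : Fin (n + 2) → K := Fin.cons 0 (Fin.cons 1 l)

theorem cfg_inj {l : Fin n → K} (h : ∀ i, l i ≠ 0 ∧ l i ≠ 1) (hl : Function.Injective l) :
    Function.Injective (cfg l) := by
  unfold cfg
  rw [Fin.cons_injective_iff, Fin.cons_injective_iff]
  refine ⟨?_, ?_, hl⟩
  · rintro ⟨i, hi⟩
    revert hi
    refine Fin.cases (fun hi => ?_) (fun i hi => ?_) i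
    · have h1 : (1 : K) = 0 := by simpa using hi
      exact one_ne_zero h1
    · exact (h i).1 (by simpa using hi)
  · rintro ⟨i, hi⟩
    exact (h i).2 hi

theorem sum_cfg (l : Fin n → K) : ∑ i, logHeight₁ (cfg l i) = ∑ i, logHeight₁ (l i) := by
  unfold cfg
  rw [Fin.sum_univ_succ, Fin.sum_univ_succ]
  simp

/-- the points `0`, `1` and `∞` of the line -/
def P3 (K : Type) [Field K] : Fin 3 → Fin 2 → K := ![![0, 1], ![1, 1], ![1, 0]]

theorem P3_form (x : K) (j : Fin 3) :
    form (P3 K j) (pt x) ≠ 0 ↔ ((j = 0 → x ≠ 0) ∧ (j = 1 → x ≠ 1)) := by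
  fin_cases j
  · show (0 : K) * 1 - 1 * x ≠ 0 ↔ _
    simp
  · show (1 : K) * 1 - 1 * x ≠ 0 ↔ _
    rw [mul_one, one_mul, sub_ne_zero]
    constructor
    · exact fun h => ⟨fun h' => absurd h' (by decide), fun _ => h.symm⟩
    · exact fun h => (h.2 rfl).symm
  · show (1 : K) * 1 - 0 * x ≠ 0 ↔ _
    simp

theorem P3_ne (i j : Fin 3) (h : i ≠ j) : form (P3 K i) (P3 K j) ≠ 0 := by
  fin_cases i <;> fin_cases j
  · exact absurd rfl h
  · show (0 : K) * 1 - 1 * 1 ≠ 0
    simp
  · show (0 : K) * 0 - 1 * 1 ≠ 0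
    simp
  · show (1 : K) * 1 - 1 * 0 ≠ 0
    simp
  · exact absurd rfl h
  · show (1 : K) * 0 - 1 * 1 ≠ 0
    simp
  · show (1 : K) * 1 - 0 * 0 ≠ 0
    simp
  · show (1 : K) * 1 - 0 * 1 ≠ 0
    simp
  · exact absurd rfl h

theorem Lv_pos_of_lam (v : HeightOneSpectrum (𝓞 K)) {e : Fin m → K} (he : Function.Injective e)
    {i j : Fin m} (hij : i ≠ j) (h : 0 < lamF v (e i) (e j)) : 0 < Lv v e := by
  classical
  unfold Lv
  have h0 : ∀ i j, j ∈ univ.erase i → 0 ≤ lamF v (e i) (e j) := fun i j hj =>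
    lamF_nonneg v fun h => (Finset.ne_of_mem_erase hj) (he h).symm
  have h1 : lamF v (e i) (e j) ≤ ∑ j ∈ univ.erase i, lamF v (e i) (e j) :=
    Finset.single_le_sum (f := fun j => lamF v (e i) (e j)) (fun j hj => h0 i j hj)
      (Finset.mem_erase.2 ⟨hij.symm, mem_univ j⟩)
  have h2 : ∑ j ∈ univ.erase i, lamF v (e i) (e j) ≤
      ∑ i, ∑ j ∈ univ.erase i, lamF v (e i) (e j) :=
    Finset.single_le_sum (f := fun i => ∑ j ∈ univ.erase i, lamF v (e i) (e j))
      (fun i _ => Finset.sum_nonneg fun j hj => h0 i j hj) (mem_univ i)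
  have h3 : 0 ≤ ∑ i, Real.log (max (fv v (e i)) 1) :=
    Finset.sum_nonneg fun i _ => Real.log_nonneg (le_max_right _ _)
  linarith

theorem Lv_pos_of_pole (v : HeightOneSpectrum (𝓞 K)) {e : Fin m → K} (he : Function.Injective e)
    {i : Fin m} (h : 1 < fv v (e i)) : 0 < Lv v e := by
  classical
  unfold Lv
  have h0 : 0 ≤ ∑ i, ∑ j ∈ univ.erase i, lamF v (e i) (e j) :=
    Finset.sum_nonneg fun i _ => Finset.sum_nonneg fun j hj =>
      lamF_nonneg v fun h => (Finset.ne_of_mem_erase hj) (he h).symm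
  have h1 : Real.log (max (fv v (e i)) 1) ≤ ∑ i, Real.log (max (fv v (e i)) 1) :=
    Finset.single_le_sum (f := fun i => Real.log (max (fv v (e i)) 1))
      (fun i _ => Real.log_nonneg (le_max_right _ _)) (mem_univ i)
  have h2 : 0 < Real.log (max (fv v (e i)) 1) := by
    rw [max_eq_left h.le]
    exact Real.log_pos h
  linarith

/-- the primes of the boundary -/
theorem Lv_of_bd {l : Fin n → K} (h : ∀ i, l i ≠ 0 ∧ l i ≠ 1) (hl : Function.Injective l)
    {v : HeightOneSpectrum (𝓞 K)}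
    (hv : v ∈ bd (∅ : Set (HeightOneSpectrum (𝓞 K))) (P3 K) l) : 0 < Lv v (cfg l) := by
  have he := cfg_inj h hl
  have hpair : ∀ i j : Fin (n + 2), i ≠ j → Nr v (pt (cfg l i)) (pt (cfg l j)) →
      0 < Lv v (cfg l) := by
    intro i j hij hN
    refine Lv_pos_of_lam v he hij ?_
    rw [lamF_eq]
    exact (localHeight_pos_iff v (form_pt_ne fun h' => hij (he h'))).2 hN
  obtain ⟨-, ⟨i, j, hN⟩ | ⟨i, k, hik, hN⟩⟩ := hv
  · fin_cases j
    · exact hpair 0 i.succ.succ (Fin.succ_ne_zero _).symm hN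
    · exact hpair (Fin.succ 0) i.succ.succ
        (fun h' => Fin.succ_ne_zero i (Fin.succ_injective _ h').symm) hN
    · refine Lv_pos_of_pole v he (i := i.succ.succ) ?_
      have h1 : fv v ((1 : K) * 1 - 0 * l i) < max (fv v 1) (fv v 0) * max (fv v (l i)) (fv v 1) :=
        hN
      rw [zero_mul, sub_zero, mul_one, map_one, map_zero, max_eq_left zero_le_one, one_mul] at h1
      rcases lt_max_iff.1 h1 with h2 | h2
      · exact h2
      · exact absurd h2 (lt_irrefl _)
  · exact hpair i.succ.succ k.succ.succ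
      (fun h' => hik (Fin.succ_injective _ (Fin.succ_injective _ h'))) hN

/-- **the bad primes of all twists** -/
theorem bad_low (hg : 2 ≤ g) (hn : n + 2 = 2 * g + 1) {l : Fin n → K}
    (h : ∀ i, l i ≠ 0 ∧ l i ≠ 1) (hl : Function.Injective l) {d : K} (hd : d ≠ 0) :
    nn (∅ : Set (HeightOneSpectrum (𝓞 K))) (P3 K) l ≤
      Real.log (badNorm g (pol d (cfg l))) + wt (finite_two K).toFinset := by
  classical
  have he := cfg_inj h hl
  have hf : ∀ i j, form (P3 K j) (pt (l i)) ≠ 0 := fun i j =>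
    (P3_form (l i) j).2 ⟨fun _ => (h i).1, fun _ => (h i).2⟩
  rw [nn_eq _ _ (bd_fin _ _ hf hl)]
  obtain ⟨B, hB⟩ : ∃ B, B = (bd_fin (∅ : Set (HeightOneSpectrum (𝓞 K))) (P3 K) hf hl).toFinset :=
    ⟨_, rfl⟩
  rw [← hB]
  have h1 : B ⊆ B.filter (fun v => v ∉ (finite_two K).toFinset) ∪ (finite_two K).toFinset := by
    intro v hv
    rw [Finset.mem_union, Finset.mem_filter]
    by_cases h2 : v ∈ (finite_two K).toFinset
    · exact Or.inr h2
    · exact Or.inl ⟨hv, h2⟩
  refine (wt_mono h1).trans ((wt_union_le _ _).trans (add_le_add ?_ le_rfl))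
  refine wt_le_bad hn hd he _ fun v hv h0 => ?_
  rw [Finset.mem_filter, hB, Set.Finite.mem_toFinset, Set.Finite.mem_toFinset] at hv
  have h2 : v.valuation K (2 : K) = 1 := by
    by_contra hne
    exact hv.2 hne
  have h3 := bad_of_Lv hg hn hd he v h2 (z := 0) (o := Fin.succ 0) (by simp [cfg])
    (by simp [cfg]) h0
  have h4 := Lv_of_bd h hl hv.1
  linarith

/-- **a twist which is ramified at almost all bad primes** -/
theorem exists_bad_twist (K : Type) [Field K] [NumberField K] (hg : 2 ≤ g)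
    (hm : m = 2 * g + 1) : ∃ c₂ : ℝ, 0 ≤ c₂ ∧ ∀ (e : Fin m → K), Function.Injective e →
      ∃ (d : K) (B : ℝ), d ≠ 0 ∧ (∀ V : Finset (HeightOneSpectrum (𝓞 K)),
          (∀ v ∈ V, 0 < Lv v e) → wt V ≤ B) ∧
        B ≤ m * ∑ i, logHeight₁ (e i) + c₂ ∧
        Real.log (badNorm g (pol d e)) ≤ B + c₂ ∧
        (2 * m + 2) * (2 * B - m * ∑ i, logHeight₁ (e i) - 2 * c₂) ≤
          Real.log (discNorm g (pol d e)) := by
  classical
  obtain ⟨S1, hS1⟩ := exists_twist K
  obtain ⟨Tw, hTw⟩ : ∃ Tw, Tw = (finite_two K).toFinset := ⟨_, rfl⟩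
  obtain ⟨c', hc'⟩ : ∃ c' : ℝ, c' = m * m * (totalWeight K * Real.log 2) := ⟨_, rfl⟩
  have hc0 : 0 ≤ c' := by
    rw [hc']
    have := Real.log_nonneg (by norm_num : (1 : ℝ) ≤ 2)
    positivity
  obtain ⟨c₂, hc₂⟩ : ∃ c₂ : ℝ, c₂ = wt S1 + wt Tw + c' := ⟨_, rfl⟩
  have hw1 := wt_nonneg S1
  have hw2 := wt_nonneg Tw
  refine ⟨c₂, by rw [hc₂]; linarith, fun e he => ?_⟩
  obtain ⟨V0, hV0⟩ : ∃ V0, V0 = (Lv_fin he).toFinset := ⟨_, rfl⟩
  have hV0m : ∀ v, v ∈ V0 ↔ Lv v e ≠ 0 := by
    intro v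
    rw [hV0, Set.Finite.mem_toFinset]
    rfl
  obtain ⟨Sm, hSm⟩ : ∃ Sm, Sm = V0.filter (fun v => Lv v e = 2 * ell v) := ⟨_, rfl⟩
  obtain ⟨R, hR⟩ : ∃ R, R = Sm.filter (fun v => ¬ ∃ i, 1 < fv v (e i)) := ⟨_, rfl⟩
  obtain ⟨d, hd, hdv⟩ := hS1 R
  have hsum := sum_Lv_le he V0
  obtain ⟨H, hH⟩ : ∃ H : ℝ, H = ∑ i, logHeight₁ (e i) := ⟨_, rfl⟩
  rw [← hH, ← hc'] at hsum
  -- the weights
  have h1 : 4 * wt V0 - 2 * wt Sm ≤ ∑ v ∈ V0, Lv v e := by
    have e1 : 4 * wt V0 - 2 * wt Sm =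
        ∑ v ∈ V0, (4 * ell v - if Lv v e = 2 * ell v then 2 * ell v else 0) := by
      rw [Finset.sum_sub_distrib, ← Finset.mul_sum, ← Finset.sum_filter, ← hSm, ← Finset.mul_sum]
      rfl
    rw [e1]
    refine Finset.sum_le_sum fun v hv => ?_
    rw [hV0m] at hv
    rcases Lv_even v he with h | h | h
    · exact absurd h hv
    · rw [if_pos h, h]
      linarith
    · split_ifs with h'
      · rw [h']
        linarith
      · linarith
  have hSmV : wt Sm ≤ wt V0 := by
    rw [hSm]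
    exact wt_mono (Finset.filter_subset _ _)
  have h2 : wt V0 ≤ m * H + c' := by linarith
  have h3 : 2 * wt V0 - m * H - c' ≤ wt Sm := by linarith
  refine ⟨d, wt V0, hd, fun V hV => ?_, ?_, ?_, ?_⟩
  · refine wt_mono fun v hv => ?_
    rw [hV0m]
    exact (hV v hv).ne'
  · rw [← hH, hc₂]
    linarith
  · have h4 := bad_le_wt hm hd he (V0 ∪ (S1 ∪ Tw)) (fun v hv => by
      by_contra hcon
      rw [Finset.mem_union, Finset.mem_union, not_or, not_or, hV0m, not_not] at hcon
      obtain ⟨h5, h6, h7⟩ := hcon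
      apply hv
      have h8 : v.valuation K (2 : K) = 1 := by
        by_contra hne
        apply h7
        rw [hTw, Set.Finite.mem_toFinset]
        exact hne
      refine minExp_zero hm hd he v h8 (by omega) h5 ?_
      rw [hdv v h6, if_neg]
      rw [hR, hSm, Finset.mem_filter, Finset.mem_filter, hV0m]
      exact fun h => h.1.1 h5)
    refine h4.trans ((wt_union_le _ _).trans ?_)
    have h5 := wt_union_le S1 Tw
    rw [hc₂]
    linarith
  · have h4 : wt Sm ≤ wt (Sm.filter fun v => v ∉ S1 ∧ v ∉ Tw) + (wt S1 + wt Tw) := by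
      have h5 : Sm ⊆ (Sm.filter fun v => v ∉ S1 ∧ v ∉ Tw) ∪ (S1 ∪ Tw) := by
        intro v hv
        rw [Finset.mem_union, Finset.mem_filter, Finset.mem_union]
        by_cases h6 : v ∈ S1
        · exact Or.inr (Or.inl h6)
        · by_cases h7 : v ∈ Tw
          · exact Or.inr (Or.inr h7)
          · exact Or.inl ⟨hv, h6, h7⟩
      exact (wt_mono h5).trans ((wt_union_le _ _).trans (add_le_add le_rfl (wt_union_le _ _)))
    have h5 := sum_le_disc hm hd he (Sm.filter fun v => v ∉ S1 ∧ v ∉ Tw)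
      (c := 2 * m + 2) (by positivity) (fun v hv => by
        rw [Finset.mem_filter] at hv
        obtain ⟨h6, h7, h8⟩ := hv
        have h9 : v.valuation K (2 : K) = 1 := by
          by_contra hne
          apply h8
          rw [hTw, Set.Finite.mem_toFinset]
          exact hne
        have h6' : Lv v e = 2 * ell v := by
          rw [hSm, Finset.mem_filter] at h6
          exact h6.2
        refine minExp_low hg hm hd he v h9 h6' (fun hp => ?_) (fun hp => ?_)
        · rw [hdv v h7, if_neg]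
          rw [hR, Finset.mem_filter]
          exact fun h => h.2 hp
        · rw [hdv v h7, if_pos]
          rw [hR, Finset.mem_filter]
          exact ⟨h6, hp⟩)
    refine le_trans ?_ h5
    refine mul_le_mul_of_nonneg_left ?_ (by positivity)
    rw [← hH, hc₂]
    linarith

end Pool.Agent.Y728.HY
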