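import Pool.Agent.Y728.HY.Main

set_option autoImplicit false

/-!
# Hyperelliptic curves with rational Weierstrass points: the parity of the exponents of the minimal
discriminant, and the twists which are as little ramified as possible (helper728)
-/

namespace Pool.Agent.Y728.HY

open Polynomial Finset NumberField IsDedekindDomain WithZero Height Pool.Agent.W318
  Pool.Agent.TH905.HS
open Pool.Agent.H691R3 (fv Nv two_le_Nv fv_support_finite)
open Pool.Agent.H951R3.V (ell ell_pos)
open Pool.Agent.Y728.MN (lamF lamF_nonneg wt pt Nr nn bd bd_fin nn_eq wt_mono wt_union_le)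
open Pool.Agent.TH876.KR (form)

variable {K : Type} [Field K] [NumberField K] {m n g : ℕ}

theorem sum_erase_even {x : Fin m → Fin m → ℤ} (hx : ∀ i j, x i j = x j i) :
    ∃ s : ℤ, ∑ i, ∑ j ∈ univ.erase i, x i j = 2 * s := by
  classical
  refine ⟨∑ i, ∑ j ∈ univ.filter (fun j => i < j), x i j, ?_⟩
  have e1 : ∀ i, ∑ j ∈ univ.erase i, x i j = ∑ j ∈ univ.filter (fun j => i < j), x i j +
      ∑ j ∈ univ.filter (fun j => j < i), x i j := by
    intro i
    rw [← Finset.sum_union]
    · refine Finset.sum_congr ?_ fun _ _ => rfl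
      ext j
      simp only [Finset.mem_erase, mem_univ, and_true, Finset.mem_union, Finset.mem_filter,
        true_and]
      constructor
      · intro h
        rcases lt_or_gt_of_ne h with h' | h'
        · exact Or.inr h'
        · exact Or.inl h'
      · rintro (h | h)
        · exact h.ne'
        · exact h.ne
    · rw [Finset.disjoint_left]
      intro j hj hj'
      rw [Finset.mem_filter] at hj hj'
      exact absurd (hj.2.trans hj'.2) (lt_irrefl _)
  have e2 : ∑ i, ∑ j ∈ univ.filter (fun j => j < i), x i j =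
      ∑ i, ∑ j ∈ univ.filter (fun j => i < j), x i j := by
    simp only [Finset.sum_filter]
    rw [Finset.sum_comm]
    refine Finset.sum_congr rfl fun i _ => Finset.sum_congr rfl fun j _ => ?_
    rw [hx j i]
  rw [Finset.sum_congr rfl fun i _ => e1 i, Finset.sum_add_distrib, e2]
  ring

/-- **the exponents of the minimal discriminant are even** -/
theorem minExp_even (hg : 2 ≤ g) (hm : m = 2 * g + 1) {d : K} (hd : d ≠ 0)
    {e : Fin m → K} (he : Function.Injective e) (v : HeightOneSpectrum (𝓞 K))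
    (h2 : v.valuation K (2 : K) = 1) : ∃ s : ℤ, (minExp g (pol d e) v : ℤ) = 2 * s := by
  classical
  obtain ⟨c, n, hc0, hn0, hc1, hc2, hn1, hn2, hn3, hL⟩ := Lv_exp v he
  obtain ⟨kd, hkd⟩ := exists_exp v hd
  have hF := pol_isHyp hm hd he
  obtain ⟨f, f₂, hM, hn⟩ := exists_min_model hF v
  obtain ⟨φ⟩ := hM.iso
  have hbr := bridge hg hF.1 hF.2 hM.upper φ
  set G := 4 * f + f₂ ^ 2 with hG
  have hgood : GoodForm (g + 1) G := hbr.good (by omega) hF.good
  have h4 : (1 / 4 : K) ≠ 0 := by norm_num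
  have hv4 : v.valuation K (1 / 4 : K) = 1 := by
    have : (1 / 4 : K) = (2 * 2)⁻¹ := by norm_num
    rw [this, map_inv₀, map_mul, h2, one_mul, inv_one]
  have hdisc : v.valuation K (discN (g + 1 + (g + 1)) G) =
      exp (-((minExp g (pol d e) v : ℕ) : ℤ)) := by
    rw [modelDisc_eq, four_mul_form, discN_C_mul (by omega) h4 hgood.2, map_mul, map_mul,
      map_pow, map_pow, h2, hv4, one_pow, one_pow, one_mul, one_mul] at hn
    exact hn
  have hnn : g + 1 + (g + 1) = m + 1 := by omega
  obtain ⟨a, b, c', d', l, hdet, hl, hGe⟩ := hbr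
  rw [hnn] at hGe hdisc
  have hcd : c' ≠ 0 ∨ d' ≠ 0 := by
    by_contra hcon
    push Not at hcon
    exact hdet (by rw [hcon.1, hcon.2]; ring)
  rw [pol_eq, act_prod (m + 1) hcd, ← mul_assoc, ← C_mul] at hGe
  set α' : Fin (m + 1) → K := fun i => al K m i * a + be e i * c' with hα'
  set β' : Fin (m + 1) → K := fun i => al K m i * b + be e i * d' with hβ'
  have hdet' : ∀ i j, α' i * β' j - α' j * β' i =
      (a * d' - b * c') * (al K m i * be e j - al K m j * be e i) := by
    intro i j
    simp only [hα', hβ']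
    ring
  have hne' : ∀ i j, i ≠ j → α' i * β' j - α' j * β' i ≠ 0 := by
    intro i j hij
    rw [hdet']
    exact mul_ne_zero hdet (det_ne he i j hij)
  have hu : l ^ 2 * d ≠ 0 := mul_ne_zero (pow_ne_zero 2 hl) hd
  have hlog2 : 0 < Real.log 2 := Real.log_pos one_lt_two
  obtain ⟨δ, hδ⟩ := exists_exp v hdet
  obtain ⟨ld, hld⟩ := exists_exp v hl
  have hdl : Real.log (absW v (discN (m + 1) G)) = 2 * m * Real.log (absW v (l ^ 2 * d)) +
      (m + 1) * m * Real.log (absW v (a * d' - b * c')) +
        ∑ i, ∑ j ∈ univ.erase i, Real.log (absW v (e i - e j)) := by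
    have e1 := abs_discN_prod_lin (absW v) hu α' β' hne' (by rw [Fintype.card_fin]; omega)
    rw [Fintype.card_fin, Nat.add_sub_cancel, ← hGe] at e1
    have hpq : ∀ i, ∀ j ∈ univ.erase i, absW v (α' i * β' j - α' j * β' i) ≠ 0 :=
      fun i j hj => ((absW v).pos (hne' i j (Finset.ne_of_mem_erase hj).symm)).ne'
    rw [e1, Real.log_mul (pow_pos ((absW v).pos hu) _).ne'
      (Finset.prod_ne_zero_iff.mpr fun i _ => Finset.prod_ne_zero_iff.mpr (hpq i)), Real.log_pow,
      Real.log_prod fun i _ => Finset.prod_ne_zero_iff.mpr (hpq i)]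
    have e2 : ∀ i : Fin (m + 1), Real.log (∏ j ∈ univ.erase i,
        absW v (α' i * β' j - α' j * β' i)) = m * Real.log (absW v (a * d' - b * c')) +
          ∑ j ∈ univ.erase i, Real.log (absW v (al K m i * be e j - al K m j * be e i)) := by
      intro i
      rw [Real.log_prod (hpq i)]
      have e3 : ∀ j ∈ univ.erase i, Real.log (absW v (α' i * β' j - α' j * β' i)) =
          Real.log (absW v (a * d' - b * c')) +
            Real.log (absW v (al K m i * be e j - al K m j * be e i)) := by
        intro j hj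
        rw [hdet', map_mul, Real.log_mul ((absW v).pos hdet).ne'
          ((absW v).pos (det_ne he i j (Finset.ne_of_mem_erase hj).symm)).ne']
      rw [Finset.sum_congr rfl e3, Finset.sum_add_distrib, Finset.sum_const,
        Finset.card_erase_of_mem (mem_univ _), Finset.card_univ, Fintype.card_fin,
        Nat.add_sub_cancel, nsmul_eq_mul]
    rw [Finset.sum_congr rfl fun i _ => e2 i, Finset.sum_add_distrib, Finset.sum_const,
      Finset.card_univ, Fintype.card_fin, nsmul_eq_mul,
      sum_det e (fun x => Real.log (absW v x)) (by simp) (by simp)]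
    push_cast
    ring
  have e4 : ∑ i, ∑ j ∈ univ.erase i, Real.log (absW v (e i - e j)) =
      ((∑ i, ∑ j ∈ univ.erase i, (c i + c j - n i j) : ℤ) : ℝ) * Real.log 2 := by
    push_cast
    rw [Finset.sum_mul]
    refine Finset.sum_congr rfl fun i _ => ?_
    rw [Finset.sum_mul]
    refine Finset.sum_congr rfl fun j hj => ?_
    rw [hn1 i j (Finset.ne_of_mem_erase hj).symm, Real.log_zpow]
    push_cast
    ring
  obtain ⟨s, hs⟩ := sum_erase_even (x := fun i j => c i + c j - n i j) (fun i j => by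
    beta_reduce
    rw [hn3 i j]
    ring)
  beta_reduce at hs
  rw [e4, hs, log_absW v hdisc, map_mul, map_pow, absW_exp v hld, absW_exp v hkd,
    Real.log_mul (by positivity) (by positivity), Real.log_pow, Real.log_zpow, Real.log_zpow,
    log_absW v hδ] at hdl
  have h5 : ((-((minExp g (pol d e) v : ℕ) : ℤ) : ℤ) : ℝ) * Real.log 2 =
      ((2 * m * (2 * ld + kd) + (m + 1) * m * δ + 2 * s : ℤ) : ℝ) * Real.log 2 := by
    push_cast
    push_cast at hdl
    linear_combination hdl
  have h6 := mul_right_cancel₀ hlog2.ne' h5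
  have h7 : (-((minExp g (pol d e) v : ℕ) : ℤ) : ℤ) =
      2 * m * (2 * ld + kd) + (m + 1) * m * δ + 2 * s := by exact_mod_cast h6
  have h8 : ((m : ℤ) + 1) = 2 * (g + 1) := by
    have : (m : ℤ) = 2 * g + 1 := by exact_mod_cast hm
    rw [this]
    ring
  refine ⟨-(m * (2 * ld + kd) + (g + 1) * m * δ + s), ?_⟩
  rw [h8] at h7
  linear_combination -h7

theorem two_le_minExp (hg : 2 ≤ g) (hm : m = 2 * g + 1) {d : K} (hd : d ≠ 0)
    {e : Fin m → K} (he : Function.Injective e) (v : HeightOneSpectrum (𝓞 K))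
    (h2 : v.valuation K (2 : K) = 1) (h0 : minExp g (pol d e) v ≠ 0) :
    (2 : ℝ) ≤ (minExp g (pol d e) v : ℝ) := by
  obtain ⟨s, hs⟩ := minExp_even hg hm hd he v h2
  have h1 : 2 ≤ minExp g (pol d e) v := by omega
  exact_mod_cast h1

/-- **a lower bound for the discriminant** -/
theorem two_bad_le_disc (hg : 2 ≤ g) (hm : m = 2 * g + 1) {d : K} (hd : d ≠ 0)
    {e : Fin m → K} (he : Function.Injective e) :
    2 * (Real.log (badNorm g (pol d e)) - wt (finite_two K).toFinset) ≤
      Real.log (discNorm g (pol d e)) := by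
  classical
  obtain ⟨Bd, hBd⟩ : ∃ Bd, Bd = (finite_bad (pol_isHyp hm hd he)).toFinset := ⟨_, rfl⟩
  have h1 := log_bad hm hd he
  rw [← hBd] at h1
  have h2 := sum_le_disc hm hd he (Bd.filter fun v => v ∉ (finite_two K).toFinset)
    (c := 2) two_pos (fun v hv => by
      rw [Finset.mem_filter, hBd, Set.Finite.mem_toFinset, Set.Finite.mem_toFinset] at hv
      have h3 : v.valuation K (2 : K) = 1 := by
        by_contra hne
        exact hv.2 hne
      exact two_le_minExp hg hm hd he v h3 hv.1)
  have h3 : Bd ⊆ Bd.filter (fun v => v ∉ (finite_two K).toFinset) ∪ (finite_two K).toFinset := by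
    intro v hv
    rw [Finset.mem_union, Finset.mem_filter]
    by_cases h2 : v ∈ (finite_two K).toFinset
    · exact Or.inr h2
    · exact Or.inl ⟨hv, h2⟩
  have h4 := (wt_mono h3).trans (wt_union_le _ _)
  rw [h1]
  linarith

/-- the upper bound at a prime at which exactly one pair of Weierstrass points meets, to the first
order, if the twist is chosen well -/
theorem minExp_le_two (hg : 2 ≤ g) (hm : m = 2 * g + 1) {d : K} (hd : d ≠ 0)
    {e : Fin m → K} (he : Function.Injective e) (v : HeightOneSpectrum (𝓞 K))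
    (h2 : v.valuation K (2 : K) = 1) (hs : Lv v e = 2 * ell v)
    (hd0 : (¬ ∃ i, 1 < fv v (e i)) → v.valuation K d = 1)
    (hd1 : (∃ i, 1 < fv v (e i)) → v.valuation K d = exp (-1)) :
    (minExp g (pol d e) v : ℝ) ≤ 2 := by
  classical
  obtain ⟨c, n, hc0, hn0, hc1, hc2, hn1, hn2, hn3, hL⟩ := Lv_exp v he
  have hdsum := disc_sum v hc1 hn1
  obtain ⟨N, hN⟩ : ∃ N : ℤ, N = ∑ i, ∑ j ∈ univ.erase i, n i j + 2 * ∑ i, c i := ⟨_, rfl⟩
  rw [← hN] at hL hdsum
  have hN2 : N = 2 := by
    rw [hs] at hL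
    have h3 : (N : ℝ) = 2 := (mul_right_cancel₀ (ell_pos v).ne' hL).symm
    exact_mod_cast h3
  have hnn : 0 ≤ ∑ i, ∑ j ∈ univ.erase i, n i j :=
    Finset.sum_nonneg fun i _ => Finset.sum_nonneg fun j _ => hn0 i j
  have hcc : 0 ≤ ∑ i, c i := Finset.sum_nonneg fun i _ => hc0 i
  have hlog2 : 0 < Real.log 2 := Real.log_pos one_lt_two
  have hNv : 1 < Nv v := by linarith [two_le_Nv v]
  have ht : v.valuation K (2 : K) = exp (-((0 : ℕ) : ℤ)) := by
    rw [h2]
    simp
  have hpole : ∀ i, 1 < fv v (e i) ↔ c i ≠ 0 := by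
    intro i
    have h3 := hc2 i
    constructor
    · intro h4 h5
      rw [h5, zpow_zero] at h3
      have : fv v (e i) ≤ 1 := by rw [← h3]; exact le_max_left _ _
      linarith
    · intro h4
      have h5 : 0 < c i := lt_of_le_of_ne (hc0 i) (Ne.symm h4)
      have h6 : (1 : ℝ) < Nv v ^ c i := one_lt_zpow₀ hNv h5
      rw [← h3] at h6
      rcases lt_max_iff.1 h6 with h7 | h7
      · exact h7
      · exact absurd h7 (lt_irrefl _)
  have hfinal : ∀ kd : ℤ, v.valuation K d = exp kd → kd + ∑ i, c i = 0 →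
      (minExp g (pol d e) v : ℝ) ≤ 2 := by
    intro kd hkd h0
    have h := minExp_up_k hm hd he v ht (by omega : 1 ≤ g) hkd c hc1
    rw [hdsum, h0, hN2] at h
    have h3 : (minExp g (pol d e) v : ℝ) * Real.log 2 ≤ 2 * Real.log 2 := by
      have e0 : ((0 - 2 * ((0 + 1) / 2) : ℤ) : ℝ) = 0 := by norm_num
      rw [e0] at h
      push_cast at h
      linarith
    exact le_of_mul_le_mul_right h3 hlog2
  by_cases hp : ∃ i, 1 < fv v (e i)
  · obtain ⟨i₀, hi₀⟩ := id hp
    have hc₀ : c i₀ ≠ 0 := (hpole i₀).1 hi₀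
    have hle : c i₀ ≤ ∑ i, c i := Finset.single_le_sum (fun i _ => hc0 i) (mem_univ i₀)
    have hc1' : 1 ≤ c i₀ := by
      have := hc0 i₀
      omega
    have hsc : ∑ i, c i = 1 := by omega
    exact hfinal (-1) (hd1 hp) (by rw [hsc]; norm_num)
  · have hcz : ∀ i, c i = 0 := by
      intro i
      by_contra h
      exact hp ⟨i, (hpole i).2 h⟩
    have hsc : ∑ i, c i = 0 := Finset.sum_eq_zero fun i _ => hcz i
    exact hfinal 0 (by rw [hd0 hp, exp_zero]) (by rw [hsc]; norm_num)

end Pool.Agent.Y728.HY
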