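import Pool.Agent.Y728.HY.Simple
import Pool.Agent.Y728.MN.Sub

set_option autoImplicit false

/-!
# Hyperelliptic curves with rational Weierstrass points: sums over the primes (helper728)
-/

namespace Pool.Agent.Y728.HY

open Finset NumberField IsDedekindDomain Height Pool.Agent.W318 Pool.Agent.TH905.HS
open Pool.Agent.H691R3 (fv Nv two_le_Nv fv_support_finite)
open Pool.Agent.H951R3.V (ell ell_pos)
open Pool.Agent.Y728.MN (lamF lamF_nonneg lam_le height_pl wt pt Nr nn bd bd_fin nn_eq form_pt_ne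
  lamF_eq wt_mono wt_union_le)
open Pool.Agent.TH876.KR (form localHeight localHeight_pos_iff m2)

variable {K : Type} [Field K] [NumberField K] {m : ℕ}

/-- the local heights at infinity of the Weierstrass points -/
theorem sum_max_le (x : K) (R : Finset (HeightOneSpectrum (𝓞 K))) :
    ∑ v ∈ R, Real.log (max (fv v x) 1) ≤ logHeight₁ x := by
  classical
  obtain ⟨V0, hV⟩ := height_pl x
  have h1 := hV (V0 ∪ R) Finset.subset_union_left
  rw [Pool.Agent.TH876.Loc.sum_Spl] at h1
  rw [h1]
  have h2 : ∑ v ∈ R, Real.log (max (fv v x) 1) ≤ ∑ v ∈ V0 ∪ R, Real.log (max (fv v x) 1) :=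
    Finset.sum_le_sum_of_subset_of_nonneg Finset.subset_union_right fun v _ _ =>
      Real.log_nonneg (le_max_right _ _)
  refine h2.trans ?_
  refine (le_of_eq (Finset.sum_congr rfl fun v _ => ?_)).trans (le_add_of_nonneg_left ?_)
  · show _ = 1 * Real.log (max (fv v x) 1)
    rw [one_mul]
  · refine Finset.sum_nonneg fun w _ => mul_nonneg ?_ (Real.log_nonneg (le_max_right _ _))
    exact (Pool.Agent.TH876.Loc.mt_pos _).le

/-- the local heights of two Weierstrass points -/
theorem sum_lam_le {x y : K} (h : x ≠ y) (R : Finset (HeightOneSpectrum (𝓞 K))) :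
    ∑ v ∈ R, lamF v x y ≤ logHeight₁ x + logHeight₁ y + totalWeight K * Real.log 2 := by
  have h1 := lam_le h ∅ R (fun v hv => absurd hv (Finset.notMem_empty v))
    (Finset.disjoint_empty_left _)
  have h2 : 0 ≤ ∑ w : InfinitePlace K,
      (w.mult : ℝ) * max 0 (Pool.Agent.Y728.MN.lamI w x y) :=
    Finset.sum_nonneg fun w _ => mul_nonneg (Nat.cast_nonneg _) (le_max_left _ _)
  have h3 : wt (∅ : Finset (HeightOneSpectrum (𝓞 K))) = 0 := Finset.sum_empty
  linarith

/-- **the sum of the local heights of all pairs** -/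
theorem sum_Lv_le {e : Fin m → K} (he : Function.Injective e)
    (R : Finset (HeightOneSpectrum (𝓞 K))) :
    ∑ v ∈ R, Lv v e ≤ 2 * m * ∑ i, logHeight₁ (e i) + m * m * (totalWeight K * Real.log 2) := by
  classical
  obtain ⟨c, hc⟩ : ∃ c : ℝ, c = totalWeight K * Real.log 2 := ⟨_, rfl⟩
  have hc0 : 0 ≤ c := by
    rw [hc]
    have := Real.log_nonneg (by norm_num : (1 : ℝ) ≤ 2)
    positivity
  rw [← hc]
  have e1 : ∑ v ∈ R, Lv v e = ∑ i, ∑ j ∈ univ.erase i, ∑ v ∈ R, lamF v (e i) (e j) +
      2 * ∑ i, ∑ v ∈ R, Real.log (max (fv v (e i)) 1) := by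
    unfold Lv
    rw [Finset.sum_add_distrib, ← Finset.mul_sum, Finset.sum_comm]
    congr 1
    · refine Finset.sum_congr rfl fun i _ => ?_
      rw [Finset.sum_comm]
    · congr 1
      rw [Finset.sum_comm]
  have h1 : ∑ i, ∑ j ∈ univ.erase i, ∑ v ∈ R, lamF v (e i) (e j) ≤
      ∑ i, ∑ j ∈ univ.erase i, ((logHeight₁ (e i) + logHeight₁ (e j)) + c) := by
    refine Finset.sum_le_sum fun i _ => Finset.sum_le_sum fun j hj => ?_
    rw [hc]
    exact sum_lam_le (fun h => (Finset.ne_of_mem_erase hj) (he h).symm) R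
  have h2 : ∑ i, ∑ v ∈ R, Real.log (max (fv v (e i)) 1) ≤ ∑ i, logHeight₁ (e i) :=
    Finset.sum_le_sum fun i _ => sum_max_le (e i) R
  have e2 : ∑ i, ∑ j ∈ univ.erase i, ((logHeight₁ (e i) + logHeight₁ (e j)) + c) =
      2 * (m - 1) * ∑ i, logHeight₁ (e i) + ∑ i : Fin m, ∑ _j ∈ univ.erase i, c := by
    rw [← sum_sum_erase (fun i => logHeight₁ (e i)), ← Finset.sum_add_distrib]
    exact Finset.sum_congr rfl fun i _ => Finset.sum_add_distrib
  have h3 : ∑ i : Fin m, ∑ _j ∈ univ.erase i, c ≤ m * m * c := by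
    have h4 : ∀ i : Fin m, ∑ _j ∈ univ.erase i, c ≤ m * c := by
      intro i
      rw [Finset.sum_const, nsmul_eq_mul]
      refine mul_le_mul_of_nonneg_right ?_ hc0
      have : (univ.erase i).card ≤ m := by
        refine (Finset.card_le_univ _).trans ?_
        rw [Fintype.card_fin]
      exact_mod_cast this
    refine (Finset.sum_le_sum fun i _ => h4 i).trans (le_of_eq ?_)
    rw [Finset.sum_const, Finset.card_univ, Fintype.card_fin, nsmul_eq_mul]
    ring
  rw [e1]
  rw [e2] at h1
  linarith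

theorem Lv_nonneg (v : HeightOneSpectrum (𝓞 K)) {e : Fin m → K} (he : Function.Injective e) :
    0 ≤ Lv v e := by
  classical
  obtain ⟨c, n, hc0, hn0, hc1, hc2, hn1, hn2, hn3, hL⟩ := Lv_exp v he
  rw [hL]
  have h1 : (0 : ℤ) ≤ ∑ i, ∑ j ∈ univ.erase i, n i j + 2 * ∑ i, c i :=
    add_nonneg (Finset.sum_nonneg fun i _ => Finset.sum_nonneg fun j _ => hn0 i j)
      (mul_nonneg (by norm_num) (Finset.sum_nonneg fun i _ => hc0 i))
  exact mul_nonneg (by exact_mod_cast h1) (ell_pos v).le

/-- the sum is an even multiple of `log N(v)` -/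
theorem Lv_even (v : HeightOneSpectrum (𝓞 K)) {e : Fin m → K} (he : Function.Injective e) :
    Lv v e = 0 ∨ Lv v e = 2 * ell v ∨ 4 * ell v ≤ Lv v e := by
  classical
  obtain ⟨c, n, hc0, hn0, hc1, hc2, hn1, hn2, hn3, hL⟩ := Lv_exp v he
  -- the number of ordered pairs is even
  have h1 : ∃ s : ℤ, ∑ i, ∑ j ∈ univ.erase i, n i j = 2 * s := by
    refine ⟨∑ i, ∑ j ∈ univ.filter (fun j => i < j), n i j, ?_⟩
    have e1 : ∀ i, ∑ j ∈ univ.erase i, n i j = ∑ j ∈ univ.filter (fun j => i < j), n i j +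
        ∑ j ∈ univ.filter (fun j => j < i), n i j := by
      intro i
      rw [← Finset.sum_union]
      · refine Finset.sum_congr ?_ fun _ _ => rfl
        ext j
        simp only [Finset.mem_erase, mem_univ, and_true, Finset.mem_union, Finset.mem_filter,
          true_and]
        constructor
        · intro h
          rcases lt_or_gt_of_ne h with h' | h'
          · exact Or.inr h'
          · exact Or.inl h'
        · rintro (h | h)
          · exact h.ne'
          · exact h.ne
      · rw [Finset.disjoint_left]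
        intro j hj hj'
        rw [Finset.mem_filter] at hj hj'
        exact absurd (hj.2.trans hj'.2) (lt_irrefl _)
    have e2 : ∑ i, ∑ j ∈ univ.filter (fun j => j < i), n i j =
        ∑ i, ∑ j ∈ univ.filter (fun j => i < j), n i j := by
      simp only [Finset.sum_filter]
      rw [Finset.sum_comm]
      refine Finset.sum_congr rfl fun i _ => Finset.sum_congr rfl fun j _ => ?_
      rw [hn3 j i]
    rw [Finset.sum_congr rfl fun i _ => e1 i, Finset.sum_add_distrib, e2]
    ring
  obtain ⟨s, hs⟩ := h1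
  have hs0 : 0 ≤ ∑ i, ∑ j ∈ univ.erase i, n i j :=
    Finset.sum_nonneg fun i _ => Finset.sum_nonneg fun j _ => hn0 i j
  have hc : 0 ≤ ∑ i, c i := Finset.sum_nonneg fun i _ => hc0 i
  obtain ⟨N, hN⟩ : ∃ N : ℤ, N = ∑ i, ∑ j ∈ univ.erase i, n i j + 2 * ∑ i, c i := ⟨_, rfl⟩
  rw [← hN] at hL
  have h2 : N = 0 ∨ N = 2 ∨ 4 ≤ N := by omega
  rcases h2 with h | h | h
  · left
    rw [hL, h]
    norm_num
  · right; left
    rw [hL, h]
    norm_num
  · right; right
    rw [hL]
    have h3 : (4 : ℝ) ≤ (N : ℝ) := by exact_mod_cast h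
    exact mul_le_mul_of_nonneg_right h3 (ell_pos v).le

theorem Lv_fin {e : Fin m → K} (he : Function.Injective e) :
    {v : HeightOneSpectrum (𝓞 K) | Lv v e ≠ 0}.Finite := by
  classical
  have h1 : (⋃ i : Fin m, {v : HeightOneSpectrum (𝓞 K) | 1 < fv v (e i)}).Finite := by
    refine Set.finite_iUnion fun i => ?_
    refine (Pool.Agent.Y728.MN.big_fin (pt (e i))).subset fun v hv => ?_
    show 1 < m2 v (pt (e i))
    rw [Pool.Agent.Y728.MN.m2_pt]
    exact lt_of_lt_of_le hv (le_max_left _ _)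
  have h2 : (⋃ p : Fin m × Fin m, {v : HeightOneSpectrum (𝓞 K) | p.1 ≠ p.2 ∧
      lamF v (e p.1) (e p.2) ≠ 0}).Finite := by
    refine Set.finite_iUnion fun p => ?_
    by_cases h : p.1 = p.2
    · exact Set.Finite.subset Set.finite_empty fun v hv => absurd h hv.1
    · have h3 : e p.1 ≠ e p.2 := fun h' => h (he h')
      refine (Pool.Agent.Y728.MN.nr_fin (form_pt_ne h3)).subset fun v hv => ?_
      have h4 : 0 < lamF v (e p.1) (e p.2) := lt_of_le_of_ne (lamF_nonneg v h3) hv.2.symm
      rw [lamF_eq] at h4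
      exact (localHeight_pos_iff v (form_pt_ne h3)).1 h4
  refine (h1.union h2).subset fun v hv => ?_
  by_contra hcon
  rw [Set.mem_union, not_or, Set.mem_iUnion, Set.mem_iUnion, not_exists, not_exists] at hcon
  apply hv
  unfold Lv
  have e1 : ∑ i, ∑ j ∈ univ.erase i, lamF v (e i) (e j) = 0 := by
    refine Finset.sum_eq_zero fun i _ => Finset.sum_eq_zero fun j hj => ?_
    by_contra h
    exact hcon.2 (i, j) ⟨(Finset.ne_of_mem_erase hj).symm, h⟩
  have e2 : ∑ i, Real.log (max (fv v (e i)) 1) = 0 := by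
    refine Finset.sum_eq_zero fun i _ => ?_
    have h3 : fv v (e i) ≤ 1 := by
      by_contra h
      exact hcon.1 i (not_le.1 h)
    rw [max_eq_right h3, Real.log_one]
  rw [e1, e2]
  ring

end Pool.Agent.Y728.HY
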