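import Pool.Agent.Y728.HY.Even

set_option autoImplicit false

/-!
# Hyperelliptic curves with rational Weierstrass points: Szpiro's inequality for the least ramified
twist (helper728)
-/

namespace Pool.Agent.Y728.HY

open Finset NumberField IsDedekindDomain WithZero Height Pool.Agent.W318 Pool.Agent.TH905.HS
open Pool.Agent.H691R3 (fv Nv two_le_Nv fv_support_finite)
open Pool.Agent.H951R3.V (ell ell_pos)
open Pool.Agent.Y728.MN (lamF lamF_nonneg wt pt Nr nn bd bd_fin nn_eq wt_mono wt_union_le)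
open Pool.Agent.TH876.KR (form)

variable {m n g : ℕ}

/-- **a twist which is unramified at almost all bad primes** -/
theorem exists_good_twist (K : Type) [Field K] [NumberField K] (hg : 2 ≤ g)
    (hm : m = 2 * g + 1) : ∃ c₃ : ℝ, ∀ (e : Fin m → K), Function.Injective e →
      ∃ (d : K) (W : ℝ), d ≠ 0 ∧ (∀ V : Finset (HeightOneSpectrum (𝓞 K)),
          (∀ v ∈ V, 0 < Lv v e) → wt V ≤ W) ∧
        Real.log (discNorm g (pol d e)) ≤ 2 * m * ∑ i, logHeight₁ (e i) +
          2 * m * (m * ∑ i, logHeight₁ (e i) - W) + c₃ := by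
  classical
  choose t ht using fun v : HeightOneSpectrum (𝓞 K) => exists_two_exp v
  obtain ⟨S1, hS1⟩ := exists_twist K
  obtain ⟨Tw, hTw⟩ : ∃ Tw, Tw = (finite_two K).toFinset := ⟨_, rfl⟩
  obtain ⟨c', hc'⟩ : ∃ c' : ℝ, c' = m * m * (totalWeight K * Real.log 2) := ⟨_, rfl⟩
  obtain ⟨c4, hc4⟩ : ∃ c4 : ℝ, c4 = ∑ v ∈ S1 ∪ Tw, (4 * g * t v + 2 * m) * ell v := ⟨_, rfl⟩
  refine ⟨c4 + c' + m * c', fun e he => ?_⟩
  obtain ⟨V0, hV0⟩ : ∃ V0, V0 = (Lv_fin he).toFinset := ⟨_, rfl⟩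
  have hV0m : ∀ v, v ∈ V0 ↔ Lv v e ≠ 0 := by
    intro v
    rw [hV0, Set.Finite.mem_toFinset]
    rfl
  obtain ⟨Sm, hSm⟩ : ∃ Sm, Sm = V0.filter (fun v => Lv v e = 2 * ell v) := ⟨_, rfl⟩
  obtain ⟨R, hR⟩ : ∃ R, R = Sm.filter (fun v => ∃ i, 1 < fv v (e i)) := ⟨_, rfl⟩
  obtain ⟨d, hd, hdv⟩ := hS1 R
  have hsum := sum_Lv_le he V0
  obtain ⟨H, hH⟩ : ∃ H : ℝ, H = ∑ i, logHeight₁ (e i) := ⟨_, rfl⟩
  rw [← hH, ← hc'] at hsum
  -- the weights
  have h1 : 4 * wt V0 - 2 * wt Sm ≤ ∑ v ∈ V0, Lv v e := by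
    have e1 : 4 * wt V0 - 2 * wt Sm =
        ∑ v ∈ V0, (4 * ell v - if Lv v e = 2 * ell v then 2 * ell v else 0) := by
      rw [Finset.sum_sub_distrib, ← Finset.mul_sum, ← Finset.sum_filter, ← hSm, ← Finset.mul_sum]
      rfl
    rw [e1]
    refine Finset.sum_le_sum fun v hv => ?_
    rw [hV0m] at hv
    rcases Lv_even v he with h | h | h
    · exact absurd h hv
    · rw [if_pos h, h]
      linarith
    · split_ifs with h'
      · rw [h']
        linarith
      · linarith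
  obtain ⟨Rs, hRs⟩ : ∃ Rs, Rs = V0.filter (fun v => Lv v e ≠ 2 * ell v) := ⟨_, rfl⟩
  have hsplit : wt V0 = wt Sm + wt Rs := by
    rw [hSm, hRs]
    exact (Finset.sum_filter_add_sum_filter_not V0 (fun v => Lv v e = 2 * ell v) _).symm
  have h2 : wt Rs ≤ m * H - wt V0 + c' / 2 := by linarith
  refine ⟨d, wt V0, hd, fun V hV => ?_, ?_⟩
  · refine wt_mono fun v hv => ?_
    rw [hV0m]
    exact (hV v hv).ne'
  · -- the exponents
    obtain ⟨Bd, hBd⟩ : ∃ Bd, Bd = (finite_bad (pol_isHyp hm hd he)).toFinset := ⟨_, rfl⟩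
    have h3 := log_disc hm hd he
    rw [← hBd] at h3
    have hkey : ∀ v, (minExp g (pol d e) v : ℝ) * ell v ≤
        Lv v e + (if v ∈ Rs then 2 * m * ell v else 0) +
          (if v ∈ S1 ∪ Tw then (4 * g * t v + 2 * m) * ell v else 0) := by
      intro v
      have hel := (ell_pos v).le
      have hLv := Lv_nonneg v he
      have hup := minExp_up hm hd he v (ht v) (by omega : 1 ≤ g)
      by_cases hv1 : v ∈ S1 ∪ Tw
      · rw [if_pos hv1]
        have : 0 ≤ (if v ∈ Rs then 2 * m * ell v else 0 : ℝ) := by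
          split_ifs
          · positivity
          · exact le_rfl
        linarith
      · rw [if_neg hv1, add_zero]
        rw [Finset.mem_union, not_or] at hv1
        have h8 : v.valuation K (2 : K) = 1 := by
          by_contra hne
          apply hv1.2
          rw [hTw, Set.Finite.mem_toFinset]
          exact hne
        have ht0 : (t v : ℝ) = 0 := by
          have h9 := ht v
          rw [h8, ← exp_zero, exp_inj] at h9
          have : t v = 0 := by omega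
          rw [this, Nat.cast_zero]
        rw [ht0] at hup
        by_cases hv2 : v ∈ Rs
        · rw [if_pos hv2]
          linarith
        · rw [if_neg hv2, add_zero]
          by_cases hv3 : v ∈ V0
          · have hs : Lv v e = 2 * ell v := by
              by_contra hne
              apply hv2
              rw [hRs, Finset.mem_filter]
              exact ⟨hv3, hne⟩
            have hSv : v ∈ Sm := by
              rw [hSm, Finset.mem_filter]
              exact ⟨hv3, hs⟩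
            have h9 := minExp_le_two hg hm hd he v h8 hs (fun hp => by
              rw [hdv v hv1.1, if_neg]
              rw [hR, Finset.mem_filter]
              exact fun h => hp h.2) (fun hp => by
              rw [hdv v hv1.1, if_pos]
              rw [hR, Finset.mem_filter]
              exact ⟨hSv, hp⟩)
            rw [hs]
            exact mul_le_mul_of_nonneg_right h9 hel
          · have h9 : Lv v e = 0 := by
              by_contra hne
              exact hv3 ((hV0m v).2 hne)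
            have h10 := minExp_zero hm hd he v h8 (by omega) h9 (by
              rw [hdv v hv1.1, if_neg]
              rw [hR, hSm, Finset.mem_filter, Finset.mem_filter]
              exact fun h => hv3 h.1.1)
            rw [h10, h9]
            simp
    have h4 : ∑ v ∈ Bd, (minExp g (pol d e) v : ℝ) * ell v ≤
        ∑ v ∈ Bd, Lv v e + ∑ v ∈ Bd, (if v ∈ Rs then 2 * m * ell v else 0) +
          ∑ v ∈ Bd, (if v ∈ S1 ∪ Tw then (4 * g * t v + 2 * m) * ell v else 0) := by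
      rw [← Finset.sum_add_distrib, ← Finset.sum_add_distrib]
      exact Finset.sum_le_sum fun v _ => hkey v
    have h5 := sum_Lv_le he Bd
    rw [← hH, ← hc'] at h5
    have h6 : ∑ v ∈ Bd, (if v ∈ Rs then 2 * m * ell v else 0) ≤ 2 * m * wt Rs := by
      rw [← Finset.sum_filter]
      unfold wt
      rw [Finset.mul_sum]
      refine Finset.sum_le_sum_of_subset_of_nonneg (fun v hv => (Finset.mem_filter.1 hv).2)
        fun v _ _ => ?_
      have := (ell_pos v).le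
      positivity
    have h7 : ∑ v ∈ Bd, (if v ∈ S1 ∪ Tw then (4 * g * t v + 2 * m) * ell v else 0) ≤ c4 := by
      rw [← Finset.sum_filter, hc4]
      refine Finset.sum_le_sum_of_subset_of_nonneg (fun v hv => (Finset.mem_filter.1 hv).2)
        fun v _ _ => ?_
      have := (ell_pos v).le
      positivity
    have h8 : 2 * m * wt Rs ≤ 2 * m * (m * H - wt V0 + c' / 2) :=
      mul_le_mul_of_nonneg_left h2 (by positivity)
    have e8 : 2 * m * (m * H - wt V0 + c' / 2) = 2 * m * (m * H - wt V0) + m * c' := by ring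
    rw [h3, ← hH]
    linarith

variable (K : Type) [Field K] [NumberField K]

/-- **the least ramified twist** -/
theorem some_sub (hg : 2 ≤ g) (hn : n + 2 = 2 * g + 1) (κ c : ℝ) (hκ : 2 < κ)
    (hc : 0 < c) : ∃ ε C₀ : ℝ, 0 < ε ∧ ∀ l : Fin n → K, (∀ i, l i ≠ 0 ∧ l i ≠ 1) →
      Function.Injective l →
      (((3 : ℕ) : ℝ) + n - 1 - ε) * ∑ i, logHeight₁ (l i) ≤
        nn (∅ : Set (HeightOneSpectrum (𝓞 K))) (P3 K) l + C₀ →
      ∃ d : K, d ≠ 0 ∧ (discNorm g (pol d (cfg l)) : ℝ) ≤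
        c * (badNorm g (pol d (cfg l)) : ℝ) ^ κ := by
  obtain ⟨c₃, htw⟩ := exists_good_twist (g := g) K hg hn
  obtain ⟨M, hM⟩ : ∃ M : ℝ, M = ((n + 2 : ℕ) : ℝ) := ⟨_, rfl⟩
  have hM2 : M = 2 * g + 1 := by
    rw [hM]
    exact_mod_cast hn
  have hMn : M = n + 2 := by
    rw [hM]
    push_cast
    ring
  have hM0 : 0 < M := by
    rw [hM2]
    positivity
  obtain ⟨w2, hw2⟩ : ∃ w2 : ℝ, w2 = wt (finite_two K).toFinset := ⟨_, rfl⟩
  have hκM : 0 < κ + 2 * M := by linarith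
  obtain ⟨ε, hε⟩ : ∃ ε : ℝ, ε = (κ - 2) * M / (κ + 2 * M) := ⟨_, rfl⟩
  have hε0 : 0 < ε := by
    rw [hε]
    have : 0 < κ - 2 := by linarith
    positivity
  have hεM : (κ + 2 * M) * ε = (κ - 2) * M := by
    rw [hε]
    field_simp
  obtain ⟨C₀, hC₀⟩ : ∃ C₀ : ℝ, C₀ = (Real.log c - c₃ - κ * w2) / (κ + 2 * M) := ⟨_, rfl⟩
  have hC : (κ + 2 * M) * C₀ = Real.log c - c₃ - κ * w2 := by
    rw [hC₀]
    field_simp
  refine ⟨ε, C₀, hε0, fun l hl hinj h => ?_⟩
  have he := cfg_inj hl hinj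
  obtain ⟨d, W, hd, hWV, hW⟩ := htw (cfg l) he
  refine ⟨d, hd, ?_⟩
  rw [sum_cfg, ← hM] at hW
  have h2 := bad_low hg hn hl hinj hd
  rw [← hw2] at h2
  obtain ⟨H, hH⟩ : ∃ H : ℝ, H = ∑ i, logHeight₁ (l i) := ⟨_, rfl⟩
  obtain ⟨b, hb⟩ : ∃ b : ℝ, b = Real.log (badNorm g (pol d (cfg l))) := ⟨_, rfl⟩
  obtain ⟨N, hN⟩ : ∃ N : ℝ, N = nn (∅ : Set (HeightOneSpectrum (𝓞 K))) (P3 K) l := ⟨_, rfl⟩
  have hf : ∀ i j, form (P3 K j) (pt (l i)) ≠ 0 := fun i j =>
    (P3_form (l i) j).2 ⟨fun _ => (hl i).1, fun _ => (hl i).2⟩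
  have h1 : N ≤ W := by
    rw [hN, nn_eq _ _ (bd_fin _ _ hf hinj)]
    refine hWV _ fun v hv => ?_
    rw [Set.Finite.mem_toFinset] at hv
    exact Lv_of_bd hl hinj hv
  rw [← hH] at hW
  rw [← hb, ← hN] at h2
  have e3 : ((3 : ℕ) : ℝ) + n - 1 - ε = M - ε := by
    rw [hMn]
    push_cast
    ring
  rw [← hH, ← hN, e3] at h
  have hb0 := badNorm_pos hn hd he
  have hd0 := discNorm_pos hn hd he
  rw [← Real.log_le_log_iff hd0 (by positivity), Real.log_mul hc.ne' (by positivity),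
    Real.log_rpow hb0, ← hb]
  have h3 : 2 * M * (M * H - W) ≤ 2 * M * (ε * H + C₀) :=
    mul_le_mul_of_nonneg_left (by linarith) (by positivity)
  have h4 : κ * ((M - ε) * H) ≤ κ * (b + w2 + C₀) :=
    mul_le_mul_of_nonneg_left (by linarith) (by linarith)
  have e5 : κ * ((M - ε) * H) = 2 * M * H + 2 * M * ε * H +
      ((κ - 2) * M - (κ + 2 * M) * ε) * H := by ring
  rw [hεM, sub_self, zero_mul, add_zero] at e5
  have e6 : κ * (b + w2 + C₀) = κ * b + κ * w2 + ((κ + 2 * M) * C₀ - 2 * M * C₀) := by ring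
  rw [e5, e6, hC] at h4
  have e7 : 2 * M * (ε * H + C₀) = 2 * M * ε * H + 2 * M * C₀ := by ring
  rw [e7] at h3
  linarith

/-- **the lower bound for all twists** -/
theorem none_sub (hg : 2 ≤ g) (hn : n + 2 = 2 * g + 1) (κ c : ℝ) (hκ : κ < 2)
    (hc : 0 < c) : ∃ ε C₀ : ℝ, 0 < ε ∧ ∀ l : Fin n → K, (∀ i, l i ≠ 0 ∧ l i ≠ 1) →
      Function.Injective l →
      (((3 : ℕ) : ℝ) + n - 1 - ε) * ∑ i, logHeight₁ (l i) ≤
        nn (∅ : Set (HeightOneSpectrum (𝓞 K))) (P3 K) l + C₀ →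
      ∀ d : K, d ≠ 0 → c * (badNorm g (pol d (cfg l)) : ℝ) ^ κ <
        (discNorm g (pol d (cfg l)) : ℝ) := by
  obtain ⟨M, hM⟩ : ∃ M : ℝ, M = ((n + 2 : ℕ) : ℝ) := ⟨_, rfl⟩
  have hM2 : M = 2 * g + 1 := by
    rw [hM]
    exact_mod_cast hn
  have hMn : M = n + 2 := by
    rw [hM]
    push_cast
    ring
  have hM0 : 1 ≤ M := by
    rw [hM2]
    have : (0 : ℝ) ≤ g := Nat.cast_nonneg _
    linarith
  obtain ⟨w2, hw2⟩ : ∃ w2 : ℝ, w2 = wt (finite_two K).toFinset := ⟨_, rfl⟩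
  have hw0 : 0 ≤ w2 := by
    rw [hw2]
    exact wt_nonneg _
  have hκ2 : 0 < 2 - κ := by linarith
  obtain ⟨b₀, hb₀⟩ : ∃ b₀ : ℝ, b₀ = (Real.log c + 2 * w2 + 1) / (2 - κ) := ⟨_, rfl⟩
  have hb₀' : (2 - κ) * b₀ = Real.log c + 2 * w2 + 1 := by
    rw [hb₀]
    field_simp
  refine ⟨1, -b₀ - w2, one_pos, fun l hl hinj h d hd => ?_⟩
  have he := cfg_inj hl hinj
  have h1 := two_bad_le_disc hg hn hd he
  have h2 := bad_low hg hn hl hinj hd
  rw [← hw2] at h1 h2
  obtain ⟨H, hH⟩ : ∃ H : ℝ, H = ∑ i, logHeight₁ (l i) := ⟨_, rfl⟩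
  obtain ⟨b, hb⟩ : ∃ b : ℝ, b = Real.log (badNorm g (pol d (cfg l))) := ⟨_, rfl⟩
  have hH0 : 0 ≤ H := by
    rw [hH]
    exact Finset.sum_nonneg fun i _ => zero_le_logHeight₁ _
  have e3 : ((3 : ℕ) : ℝ) + n - 1 - 1 = M - 1 := by
    rw [hMn]
    push_cast
    ring
  rw [← hH, e3] at h
  rw [← hb] at h1 h2
  have h3 : 0 ≤ (M - 1) * H := mul_nonneg (by linarith) hH0
  have hb1 : b₀ ≤ b := by linarith
  have hb0 := badNorm_pos hn hd he
  have hd0 := discNorm_pos hn hd he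
  rw [← Real.log_lt_log_iff (by positivity) hd0, Real.log_mul hc.ne' (by positivity),
    Real.log_rpow hb0, ← hb]
  have h4 : (2 - κ) * b₀ ≤ (2 - κ) * b := mul_le_mul_of_nonneg_left hb1 hκ2.le
  rw [hb₀'] at h4
  linarith

end Pool.Agent.Y728.HY
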