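import Pool.Agent.Y728.HY.Up

set_option autoImplicit false

/-!
# Hyperelliptic curves with rational Weierstrass points: a lower bound for the minimal discriminant
at odd places where only one pair of Weierstrass points meets and the twist is ramified (helper728)
-/

namespace Pool.Agent.Y728.HY

open Polynomial Finset NumberField IsDedekindDomain WithZero Pool.Agent.W318 Pool.Agent.TH905.HS

section

variable {K : Type} [Field K] [NumberField K]

/-- a lower bound for the exponent of the minimal discriminant, if only the pair `i₀, j₀` of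
Weierstrass points meets at `v` and the twist is ramified -/
theorem minExp_low_k {g m : ℕ} (hg : 2 ≤ g) (hm : m = 2 * g + 1) {d : K} (hd : d ≠ 0)
    {e : Fin m → K} (he : Function.Injective e) (v : HeightOneSpectrum (𝓞 K))
    (h2 : v.valuation K (2 : K) = 1) (cc : Fin (m + 1) → ℤ) (i₀ j₀ : Fin (m + 1))
    (hsim : ∀ i j, i ≠ j → ¬(i = i₀ ∧ j = j₀) → ¬(i = j₀ ∧ j = i₀) →
      absW v (al K m i * be e j - al K m j * be e i) = 2 ^ (cc i + cc j)) {kd : ℤ}
    (hkd : v.valuation K d = exp kd) (hodd : Odd (kd + ∑ i, cc i)) :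
    2 * m * (1 + ∑ i, (cc i : ℝ)) * Real.log 2 -
      ∑ i, ∑ j ∈ univ.erase i, Real.log (absW v (e i - e j)) ≤
        (minExp g (pol d e) v : ℝ) * Real.log 2 := by
  classical
  have hF := pol_isHyp hm hd he
  obtain ⟨f, f₂, hM, hn⟩ := exists_min_model hF v
  obtain ⟨φ⟩ := hM.iso
  have hbr := bridge hg hF.1 hF.2 hM.upper φ
  set G := 4 * f + f₂ ^ 2 with hG
  have hgood : GoodForm (g + 1) G := hbr.good (by omega) hF.good
  have hint := int_comb v hM.int hM.int₂
  have h4 : (1 / 4 : K) ≠ 0 := by norm_num
  have hv4 : v.valuation K (1 / 4 : K) = 1 := by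
    have : (1 / 4 : K) = (2 * 2)⁻¹ := by norm_num
    rw [this, map_inv₀, map_mul, h2, one_mul, inv_one]
  have hdisc : v.valuation K (discN (g + 1 + (g + 1)) G) =
      exp (-((minExp g (pol d e) v : ℕ) : ℤ)) := by
    rw [modelDisc_eq, four_mul_form, discN_C_mul (by omega) h4 hgood.2, map_mul, map_mul,
      map_pow, map_pow, h2, hv4, one_pow, one_pow, one_mul, one_mul] at hn
    exact hn
  have hnn : g + 1 + (g + 1) = m + 1 := by omega
  obtain ⟨a, b, c, d', l, hdet, hl, hGe⟩ := hbr
  rw [hnn] at hGe hdisc
  have hcd : c ≠ 0 ∨ d' ≠ 0 := by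
    by_contra hcon
    push Not at hcon
    exact hdet (by rw [hcon.1, hcon.2]; ring)
  rw [pol_eq, act_prod (m + 1) hcd, ← mul_assoc, ← C_mul] at hGe
  set α' : Fin (m + 1) → K := fun i => al K m i * a + be e i * c with hα'
  set β' : Fin (m + 1) → K := fun i => al K m i * b + be e i * d' with hβ'
  have hdet' : ∀ i j, α' i * β' j - α' j * β' i =
      (a * d' - b * c) * (al K m i * be e j - al K m j * be e i) := by
    intro i j
    simp only [hα', hβ']
    ring
  have hne' : ∀ i j, i ≠ j → α' i * β' j - α' j * β' i ≠ 0 := by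
    intro i j hij
    rw [hdet']
    exact mul_ne_zero hdet (det_ne he i j hij)
  have hu : l ^ 2 * d ≠ 0 := mul_ne_zero (pow_ne_zero 2 hl) hd
  have hna := absW_na v
  have hA1 : absW v (l ^ 2 * d) * ∏ i, max (absW v (α' i)) (absW v (β' i)) ≤ 1 := by
    have e1 : G.gaussNorm (absW v) 1 ≤ 1 :=
      (gaussNorm_le_one_iff _).mpr fun i => (absW_le_one_iff v _).mpr (hint i)
    rw [hGe, gaussNorm_prod_lin hna] at e1
    exact e1
  have hlog2 : 0 < Real.log 2 := Real.log_pos one_lt_two
  -- integer exponents
  have hpe : ∀ i, ∃ p : ℤ, max (absW v (α' i)) (absW v (β' i)) = 2 ^ p := by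
    intro i
    have hnz : α' i ≠ 0 ∨ β' i ≠ 0 := by
      by_contra hcon
      push Not at hcon
      obtain ⟨j, hj⟩ : ∃ j : Fin (m + 1), i ≠ j := by
        have : Nontrivial (Fin (m + 1)) := Fin.nontrivial_iff_two_le.mpr (by omega)
        obtain ⟨j, hj⟩ := exists_ne i
        exact ⟨j, hj.symm⟩
      exact hne' i j hj (by rw [hcon.1, hcon.2]; ring)
    rcases le_total (absW v (α' i)) (absW v (β' i)) with h | h
    · rw [max_eq_right h]
      have : β' i ≠ 0 := by
        intro h0
        rw [h0, map_zero] at h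
        have h5 : α' i = 0 := (absW v).eq_zero.mp (le_antisymm h ((absW v).nonneg _))
        rcases hnz with h6 | h6
        · exact h6 h5
        · exact h6 h0
      exact absW_pow v this
    · rw [max_eq_left h]
      have : α' i ≠ 0 := by
        intro h0
        rw [h0, map_zero] at h
        have h5 : β' i = 0 := (absW v).eq_zero.mp (le_antisymm h ((absW v).nonneg _))
        rcases hnz with h6 | h6
        · exact h6 h0
        · exact h6 h5
      exact absW_pow v this
  choose p hp using hpe
  obtain ⟨δ, hδ⟩ := exists_exp v hdet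
  obtain ⟨ld, hld⟩ := exists_exp v hl
  have hpos2 : (0 : ℝ) < 2 := by norm_num
  -- pair inequalities
  have hpair : ∀ i j, absW v (α' i * β' j - α' j * β' i) ≤ (2 : ℝ) ^ (p i + p j) := by
    intro i j
    rw [zpow_add₀ (by norm_num), ← hp i, ← hp j]
    have hμ0 : ∀ i, 0 ≤ max (absW v (α' i)) (absW v (β' i)) :=
      fun i => ((absW v).nonneg _).trans (le_max_left _ _)
    refine (na_sub_le hna _ _).trans (max_le ?_ ?_)
    · rw [map_mul]
      exact mul_le_mul (le_max_left _ _) (le_max_right _ _) ((absW v).nonneg _) (hμ0 i)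
    · rw [map_mul, mul_comm (max (absW v (α' i)) (absW v (β' i)))]
      exact mul_le_mul (le_max_left _ _) (le_max_right _ _) ((absW v).nonneg _) (hμ0 j)
  set aa : Fin (m + 1) → ℤ := fun i => p i - cc i with haa
  have hpar := int_parity hg (by omega : m + 1 = 2 * g + 2) aa δ (2 * ld + (kd + ∑ i, cc i))
    i₀ j₀
    (by
      intro i j hij hs1 hs2
      have h5 := hpair i j
      rw [hdet', map_mul, absW_exp v hδ, hsim i j hij hs1 hs2, ← zpow_add₀ (by norm_num),
        zpow_le_zpow_iff_right₀ (by norm_num)] at h5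
      simp only [haa]
      linarith) (by
      have h5 : Real.log (absW v (l ^ 2 * d) * ∏ i, max (absW v (α' i)) (absW v (β' i))) ≤ 0 := by
        apply Real.log_nonpos _ hA1
        exact mul_nonneg ((absW v).nonneg _) (Finset.prod_nonneg fun i _ =>
          ((absW v).nonneg _).trans (le_max_left _ _))
      have hpr : ∏ i, max (absW v (α' i)) (absW v (β' i)) ≠ 0 :=
        Finset.prod_ne_zero_iff.mpr fun i _ => by rw [hp i]; positivity
      rw [Real.log_mul ((absW v).pos hu).ne' hpr, Real.log_prod (fun i _ => by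
        rw [hp i]; positivity), Finset.sum_congr rfl fun i _ => by rw [hp i, Real.log_zpow],
        ← Finset.sum_mul, map_mul, map_pow, absW_exp v hld, absW_exp v hkd,
        Real.log_mul (by positivity) (by positivity), Real.log_pow, Real.log_zpow,
        Real.log_zpow] at h5
      have h6 : ((2 * ld + kd + ∑ i, p i : ℤ) : ℝ) * Real.log 2 ≤ 0 := by
        push_cast
        push_cast at h5
        linarith
      have h7 : ((2 * ld + kd + ∑ i, p i : ℤ) : ℝ) ≤ 0 := by
        by_contra hcon
        push Not at hcon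
        exact absurd h6 (not_le.mpr (mul_pos hcon hlog2))
      have h8 : (2 * ld + kd + ∑ i, p i : ℤ) ≤ 0 := by exact_mod_cast h7
      have h9 : ∑ i, aa i = ∑ i, p i - ∑ i, cc i := by
        simp only [haa]
        rw [Finset.sum_sub_distrib]
      rw [h9]
      linarith) (by
      obtain ⟨q, hq⟩ := hodd
      exact ⟨ld + q, by rw [hq]; ring⟩)
  -- the discriminant
  have hdl : Real.log (absW v (discN (m + 1) G)) = 2 * m * Real.log (absW v (l ^ 2 * d)) +
      (m + 1) * m * Real.log (absW v (a * d' - b * c)) +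
        ∑ i, ∑ j ∈ univ.erase i, Real.log (absW v (e i - e j)) := by
    have e1 := abs_discN_prod_lin (absW v) hu α' β' hne' (by rw [Fintype.card_fin]; omega)
    rw [Fintype.card_fin, Nat.add_sub_cancel, ← hGe] at e1
    have hpq : ∀ i, ∀ j ∈ univ.erase i, absW v (α' i * β' j - α' j * β' i) ≠ 0 :=
      fun i j hj => ((absW v).pos (hne' i j (Finset.ne_of_mem_erase hj).symm)).ne'
    rw [e1, Real.log_mul (pow_pos ((absW v).pos hu) _).ne'
      (Finset.prod_ne_zero_iff.mpr fun i _ => Finset.prod_ne_zero_iff.mpr (hpq i)), Real.log_pow,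
      Real.log_prod fun i _ => Finset.prod_ne_zero_iff.mpr (hpq i)]
    have e2 : ∀ i : Fin (m + 1), Real.log (∏ j ∈ univ.erase i,
        absW v (α' i * β' j - α' j * β' i)) = m * Real.log (absW v (a * d' - b * c)) +
          ∑ j ∈ univ.erase i, Real.log (absW v (al K m i * be e j - al K m j * be e i)) := by
      intro i
      rw [Real.log_prod (hpq i)]
      have e3 : ∀ j ∈ univ.erase i, Real.log (absW v (α' i * β' j - α' j * β' i)) =
          Real.log (absW v (a * d' - b * c)) +
            Real.log (absW v (al K m i * be e j - al K m j * be e i)) := by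
        intro j hj
        rw [hdet', map_mul, Real.log_mul ((absW v).pos hdet).ne'
          ((absW v).pos (det_ne he i j (Finset.ne_of_mem_erase hj).symm)).ne']
      rw [Finset.sum_congr rfl e3, Finset.sum_add_distrib, Finset.sum_const,
        Finset.card_erase_of_mem (mem_univ _), Finset.card_univ, Fintype.card_fin,
        Nat.add_sub_cancel, nsmul_eq_mul]
    rw [Finset.sum_congr rfl fun i _ => e2 i, Finset.sum_add_distrib, Finset.sum_const,
      Finset.card_univ, Fintype.card_fin, nsmul_eq_mul,
      sum_det e (fun x => Real.log (absW v x)) (by simp) (by simp)]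
    push_cast
    ring
  rw [log_absW v hdisc, map_mul, map_pow, absW_exp v hld, absW_exp v hkd,
    Real.log_mul (by positivity) (by positivity), Real.log_pow, Real.log_zpow, Real.log_zpow,
    log_absW v hδ] at hdl
  have hpar' : (2 * ld + (kd + ∑ i, (cc i : ℝ))) + (g + 1) * (δ : ℝ) ≤ -1 := by
    exact_mod_cast hpar
  have hm' : (m : ℝ) = 2 * g + 1 := by exact_mod_cast hm
  have hfin : (2 * m : ℝ) * ((2 * ld + (kd + ∑ i, (cc i : ℝ))) + (g + 1) * (δ : ℝ)) *
      Real.log 2 ≤ 2 * m * (-1) * Real.log 2 := by
    refine mul_le_mul_of_nonneg_right (mul_le_mul_of_nonneg_left hpar' (by positivity)) hlog2.le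
  push_cast at hdl hfin ⊢
  rw [hm'] at hfin hdl ⊢
  nlinarith

end

end Pool.Agent.Y728.HY
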