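import Pool.Agent.Y728.HY.Low
import Pool.Agent.TH905.HS.Glob
import Pool.Agent.Y728.MN.Lam

set_option autoImplicit false

/-!
# Hyperelliptic curves with rational Weierstrass points: the sum of the local heights of the pairs of
Weierstrass points (helper728)
-/

namespace Pool.Agent.Y728.HY

open Finset NumberField IsDedekindDomain WithZero Height Pool.Agent.W318 Pool.Agent.TH905.HS
open Pool.Agent.H691R3 (fv Nv two_le_Nv)
open Pool.Agent.H951R3.V (ell ell_pos)
open Pool.Agent.Y728.MN (lamF lamF_nonneg wt)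

variable {K : Type} [Field K] [NumberField K] {m : ℕ}

/-- the sum of the local heights of the ordered pairs of Weierstrass points -/
noncomputable def Lv (v : HeightOneSpectrum (𝓞 K)) (e : Fin m → K) : ℝ :=
  ∑ i, ∑ j ∈ univ.erase i, lamF v (e i) (e j) + 2 * ∑ i, Real.log (max (fv v (e i)) 1)

theorem one_exp (v : HeightOneSpectrum (𝓞 K)) (x : K) : ∃ c : ℤ, 0 ≤ c ∧
    max (absW v x) 1 = 2 ^ c ∧ max (fv v x) 1 = Nv v ^ c := by
  by_cases hx : x = 0
  · refine ⟨0, le_rfl, ?_, ?_⟩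
    · rw [hx, map_zero, zpow_zero, max_eq_right zero_le_one]
    · rw [hx, map_zero, zpow_zero, max_eq_right zero_le_one]
  · obtain ⟨k, hk⟩ := exists_exp v hx
    have hN : 1 < Nv v := by linarith [two_le_Nv v]
    rw [absW_exp v hk, fv_of_exp v hk]
    rcases le_total k 0 with h | h
    · refine ⟨0, le_rfl, ?_, ?_⟩
      · rw [zpow_zero, max_eq_right (zpow_le_one_of_nonpos₀ (by norm_num) h)]
      · rw [zpow_zero, max_eq_right (zpow_le_one_of_nonpos₀ hN.le h)]
    · refine ⟨k, h, ?_, ?_⟩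
      · rw [max_eq_left (one_le_zpow₀ (by norm_num) h)]
      · rw [max_eq_left (one_le_zpow₀ hN.le h)]

theorem pair_exp (v : HeightOneSpectrum (𝓞 K)) {x y : K} (h : x ≠ y) {a b : ℤ}
    (ha : max (fv v x) 1 = Nv v ^ a) (hb : max (fv v y) 1 = Nv v ^ b) :
    ∃ n : ℤ, 0 ≤ n ∧ lamF v x y = n * ell v ∧ absW v (x - y) = 2 ^ (a + b - n) := by
  obtain ⟨k, hk⟩ := exists_exp v (sub_ne_zero.2 h)
  have hN : 1 < Nv v := by linarith [two_le_Nv v]
  have hN0 : Nv v ≠ 0 := by linarith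
  have e1 : lamF v x y = ((a + b - k : ℤ) : ℝ) * ell v := by
    unfold Pool.Agent.Y728.MN.lamF
    rw [ha, hb, fv_of_exp v hk, ← zpow_add₀ hN0, ← zpow_sub₀ hN0, Real.log_zpow]
    rfl
  refine ⟨a + b - k, ?_, e1, ?_⟩
  · have h1 := lamF_nonneg v h
    rw [e1] at h1
    have h2 : (0 : ℝ) ≤ ((a + b - k : ℤ) : ℝ) := by
      by_contra hcon
      push Not at hcon
      exact absurd h1 (not_le.2 (mul_neg_of_neg_of_pos hcon (ell_pos v)))
    exact_mod_cast h2
  · rw [absW_exp v hk]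
    congr 1
    ring

theorem sum_sum_erase (f : Fin m → ℝ) :
    ∑ i, ∑ j ∈ univ.erase i, (f i + f j) = 2 * (m - 1) * ∑ i, f i := by
  rcases Nat.eq_zero_or_pos m with h0 | h0
  · subst h0
    simp
  have h1 : ∀ i : Fin m, ∑ j ∈ univ.erase i, (f i + f j) = (m - 1) * f i +
      (∑ j, f j - f i) := by
    intro i
    rw [Finset.sum_add_distrib, Finset.sum_const, Finset.card_erase_of_mem (mem_univ _),
      Finset.card_univ, Fintype.card_fin, nsmul_eq_mul, Nat.cast_sub h0, Nat.cast_one,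
      ← Finset.add_sum_erase univ f (mem_univ i)]
    ring
  rw [Finset.sum_congr rfl fun i _ => h1 i, Finset.sum_add_distrib, Finset.sum_sub_distrib,
    ← Finset.mul_sum, Finset.sum_const, Finset.card_univ, Fintype.card_fin, nsmul_eq_mul]
  ring

/-- the local heights are multiples of `log N(v)` -/
theorem Lv_exp (v : HeightOneSpectrum (𝓞 K)) {e : Fin m → K} (he : Function.Injective e) :
    ∃ (c : Fin m → ℤ) (n : Fin m → Fin m → ℤ), (∀ i, 0 ≤ c i) ∧ (∀ i j, 0 ≤ n i j) ∧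
      (∀ i, max (absW v (e i)) 1 = 2 ^ c i) ∧ (∀ i, max (fv v (e i)) 1 = Nv v ^ c i) ∧
      (∀ i j, i ≠ j → absW v (e i - e j) = 2 ^ (c i + c j - n i j)) ∧
      (∀ i j, i ≠ j → lamF v (e i) (e j) = n i j * ell v) ∧
      (∀ i j, n i j = n j i) ∧
      Lv v e = ((∑ i, ∑ j ∈ univ.erase i, n i j + 2 * ∑ i, c i : ℤ) : ℝ) * ell v := by
  classical
  have h1 := fun i => one_exp v (e i)
  choose c hc0 hc1 hc2 using h1
  have h2 : ∀ i j : Fin m, ∃ n : ℤ, 0 ≤ n ∧ (i ≠ j → lamF v (e i) (e j) = n * ell v ∧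
      absW v (e i - e j) = 2 ^ (c i + c j - n)) := by
    intro i j
    by_cases h : i = j
    · exact ⟨0, le_rfl, fun h' => absurd h h'⟩
    · obtain ⟨n, hn0, hn1, hn2⟩ := pair_exp v (fun h' => h (he h')) (hc2 i) (hc2 j)
      exact ⟨n, hn0, fun _ => ⟨hn1, hn2⟩⟩
  choose n' hn0 hn using h2
  refine ⟨c, fun i j => if i = j then 0 else n' i j, hc0, fun i j => ?_, hc1, hc2,
    fun i j h => ?_, fun i j h => ?_, fun i j => ?_, ?_⟩
  · beta_reduce
    split_ifs
    · exact le_rfl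
    · exact hn0 i j
  · beta_reduce
    rw [if_neg h]
    exact (hn i j h).2
  · beta_reduce
    rw [if_neg h]
    exact (hn i j h).1
  · beta_reduce
    by_cases h : i = j
    · rw [if_pos h, if_pos h.symm]
    · rw [if_neg h, if_neg (Ne.symm h)]
      have h3 := (hn i j h).2
      have h4 := (hn j i (Ne.symm h)).2
      have e3 : absW v (e i - e j) = absW v (e j - e i) := by
        rw [← neg_sub, map_neg_eq_map]
      rw [e3, h4, zpow_right_inj₀ (by norm_num) (by norm_num)] at h3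
      linarith
  · unfold Lv
    push_cast
    rw [add_mul, Finset.sum_mul, mul_assoc, Finset.sum_mul]
    congr 1
    · refine Finset.sum_congr rfl fun i _ => ?_
      rw [Finset.sum_mul]
      refine Finset.sum_congr rfl fun j hj => ?_
      have hij := (Finset.ne_of_mem_erase hj).symm
      rw [(hn i j hij).1, if_neg hij]
    · congr 1
      refine Finset.sum_congr rfl fun i _ => ?_
      rw [hc2 i, Real.log_zpow]
      rfl

theorem disc_sum (v : HeightOneSpectrum (𝓞 K)) {e : Fin m → K} {c : Fin m → ℤ}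
    {n : Fin m → Fin m → ℤ} (hc : ∀ i, max (absW v (e i)) 1 = 2 ^ c i)
    (hn : ∀ i j, i ≠ j → absW v (e i - e j) = 2 ^ (c i + c j - n i j)) :
    2 * m * ∑ i, Real.log (max (absW v (e i)) 1) -
      ∑ i, ∑ j ∈ univ.erase i, Real.log (absW v (e i - e j)) =
    ((∑ i, ∑ j ∈ univ.erase i, n i j + 2 * ∑ i, c i : ℤ) : ℝ) * Real.log 2 := by
  classical
  have e1 : ∑ i, ∑ j ∈ univ.erase i, Real.log (absW v (e i - e j)) =
      (∑ i, ∑ j ∈ univ.erase i, ((c i : ℝ) + c j) - ∑ i, ∑ j ∈ univ.erase i, (n i j : ℝ)) *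
        Real.log 2 := by
    rw [← Finset.sum_sub_distrib, Finset.sum_mul]
    refine Finset.sum_congr rfl fun i _ => ?_
    rw [← Finset.sum_sub_distrib, Finset.sum_mul]
    refine Finset.sum_congr rfl fun j hj => ?_
    rw [hn i j (Finset.ne_of_mem_erase hj).symm, Real.log_zpow]
    push_cast
    ring
  have e2 : ∑ i, Real.log (max (absW v (e i)) 1) = (∑ i, (c i : ℝ)) * Real.log 2 := by
    rw [Finset.sum_mul]
    refine Finset.sum_congr rfl fun i _ => ?_
    rw [hc i, Real.log_zpow]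
  rw [e1, e2, sum_sum_erase (fun i => (c i : ℝ))]
  push_cast
  ring

/-- **the upper bound** -/
theorem minExp_up {g : ℕ} (hm : m = 2 * g + 1) {d : K} (hd : d ≠ 0)
    {e : Fin m → K} (he : Function.Injective e) (v : HeightOneSpectrum (𝓞 K)) {t : ℕ}
    (ht : v.valuation K (2 : K) = exp (-(t : ℤ))) (hg : 1 ≤ g) :
    (minExp g (pol d e) v : ℝ) * ell v ≤ (4 * g * t + 2 * m) * ell v + Lv v e := by
  classical
  obtain ⟨c, n, hc0, hn0, hc1, hc2, hn1, hn2, hn3, hL⟩ := Lv_exp v he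
  obtain ⟨kd, hkd⟩ := exists_exp v hd
  have h := minExp_up_k hm hd he v ht hg hkd c hc1
  rw [disc_sum v hc1 hn1] at h
  obtain ⟨k, hk⟩ : ∃ k : ℤ, k = kd + ∑ i, c i := ⟨_, rfl⟩
  rw [← hk] at h
  obtain ⟨N, hN⟩ : ∃ N : ℤ, N = ∑ i, ∑ j ∈ univ.erase i, n i j + 2 * ∑ i, c i := ⟨_, rfl⟩
  rw [← hN] at h hL
  have hlog2 : 0 < Real.log 2 := Real.log_pos one_lt_two
  have hε : -1 ≤ (k - 2 * ((k + 1) / 2) : ℤ) := by omega
  have h5 : (-1 : ℝ) ≤ ((k - 2 * ((k + 1) / 2) : ℤ) : ℝ) := by exact_mod_cast hε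
  have h6 : (minExp g (pol d e) v : ℝ) * Real.log 2 ≤ (4 * g * t + 2 * m + N) * Real.log 2 := by
    have h7 : -(m * (((k - 2 * ((k + 1) / 2) : ℤ) : ℝ) * Real.log 2)) ≤ m * Real.log 2 := by
      have h8 : -(((k - 2 * ((k + 1) / 2) : ℤ) : ℝ) * Real.log 2) ≤ 1 * Real.log 2 := by
        nlinarith
      have := mul_le_mul_of_nonneg_left h8 (Nat.cast_nonneg m : (0 : ℝ) ≤ m)
      linarith
    linarith
  have h7 := le_of_mul_le_mul_right h6 hlog2
  rw [hL]
  have h8 := mul_le_mul_of_nonneg_right h7 (ell_pos v).le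
  linarith

/-- **good reduction** -/
theorem minExp_zero {g : ℕ} (hm : m = 2 * g + 1) {d : K} (hd : d ≠ 0)
    {e : Fin m → K} (he : Function.Injective e) (v : HeightOneSpectrum (𝓞 K))
    (h2 : v.valuation K (2 : K) = 1) (hg : 1 ≤ g) (hL0 : Lv v e = 0)
    (hd1 : v.valuation K d = 1) : minExp g (pol d e) v = 0 := by
  classical
  obtain ⟨c, n, hc0, hn0, hc1, hc2, hn1, hn2, hn3, hL⟩ := Lv_exp v he
  have ht : v.valuation K (2 : K) = exp (-((0 : ℕ) : ℤ)) := by
    rw [h2]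
    simp
  have hkd : v.valuation K d = exp (0 : ℤ) := by rw [hd1, exp_zero]
  have h := minExp_up_k hm hd he v ht hg hkd c hc1
  rw [disc_sum v hc1 hn1] at h
  obtain ⟨N, hN⟩ : ∃ N : ℤ, N = ∑ i, ∑ j ∈ univ.erase i, n i j + 2 * ∑ i, c i := ⟨_, rfl⟩
  rw [← hN] at h hL
  have hNz : N = 0 := by
    rw [hL0] at hL
    have h3 : (N : ℝ) = 0 := by
      rcases mul_eq_zero.1 hL.symm with h3 | h3
      · exact h3
      · exact absurd h3 (ell_pos v).ne'
    exact_mod_cast h3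
  have hnn : 0 ≤ ∑ i, ∑ j ∈ univ.erase i, n i j :=
    Finset.sum_nonneg fun i _ => Finset.sum_nonneg fun j _ => hn0 i j
  have hcc : 0 ≤ ∑ i, c i := Finset.sum_nonneg fun i _ => hc0 i
  have hc : ∑ i, c i = 0 := by omega
  rw [hc, hNz] at h
  have hlog2 : 0 < Real.log 2 := Real.log_pos one_lt_two
  have e0 : ((0 + 0 - 2 * ((0 + 0 + 1) / 2) : ℤ) : ℝ) = 0 := by norm_num
  rw [e0] at h
  have h6 : (minExp g (pol d e) v : ℝ) * Real.log 2 ≤ 0 * Real.log 2 := by
    push_cast at h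
    linarith
  have h7 := le_of_mul_le_mul_right h6 hlog2
  have h8 : (0 : ℝ) ≤ (minExp g (pol d e) v : ℝ) := Nat.cast_nonneg _
  exact_mod_cast le_antisymm h7 h8

end Pool.Agent.Y728.HY
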