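import Pool.Agent.Y728.HY.Cfg
import Pool.Agent.Y728.MN.Fin

set_option autoImplicit false

/-!
# Hyperelliptic curves with rational Weierstrass points: Szpiro's inequality for all twists
(helper728)
-/

namespace Pool.Agent.Y728.HY

open Finset NumberField IsDedekindDomain Height Pool.Agent.W318 Pool.Agent.TH905.HS
open Pool.Agent.H691R3 (fv Nv two_le_Nv fv_support_finite)
open Pool.Agent.H951R3.V (ell ell_pos)
open Pool.Agent.Y728.MN (wt pt Nr nn bd bd_fin nn_eq wt_mono)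
open Pool.Agent.TH876.KR (form counting localHeight localHeight_pos_iff localHeight_nonneg m2)

section

variable {K : Type} [Field K] [NumberField K] {m g : ℕ}

theorem badNorm_pos (hm : m = 2 * g + 1) {d : K} (hd : d ≠ 0) {e : Fin m → K}
    (he : Function.Injective e) : (0 : ℝ) < badNorm g (pol d e) := by
  rw [badNorm_eq (finite_bad (pol_isHyp hm hd he)).toFinset fun v => by simp, Nat.cast_prod]
  exact Finset.prod_pos fun v _ => lt_of_lt_of_le zero_lt_two (two_le_Nv v)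

theorem discNorm_pos (hm : m = 2 * g + 1) {d : K} (hd : d ≠ 0) {e : Fin m → K}
    (he : Function.Injective e) : (0 : ℝ) < discNorm g (pol d e) := by
  rw [discNorm_eq (finite_bad (pol_isHyp hm hd he)).toFinset fun v hv => by simpa using hv,
    Nat.cast_prod]
  refine Finset.prod_pos fun v _ => ?_
  rw [Nat.cast_pow]
  exact pow_pos (lt_of_lt_of_le zero_lt_two (two_le_Nv v)) _

end

variable (K : Type) [Field K] [NumberField K] {n g : ℕ}

/-- **above the threshold** -/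
theorem fail_sub (hg : 2 ≤ g) (hn : n + 2 = 2 * g + 1) (κ c : ℝ) (hκ : 4 * g + 4 < κ)
    (hc : 0 < c) : ∃ ε C₀ : ℝ, 0 < ε ∧ ∀ l : Fin n → K, (∀ i, l i ≠ 0 ∧ l i ≠ 1) →
      Function.Injective l →
      (((3 : ℕ) : ℝ) + n - 1 - ε) * ∑ i, logHeight₁ (l i) ≤
        nn (∅ : Set (HeightOneSpectrum (𝓞 K))) (P3 K) l + C₀ →
      ∀ d : K, d ≠ 0 → (discNorm g (pol d (cfg l)) : ℝ) ≤
        c * (badNorm g (pol d (cfg l)) : ℝ) ^ κ := by
  obtain ⟨c₁, hc₁⟩ := log_disc_up (g := g) K hn (by omega : 1 ≤ g)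
  obtain ⟨M, hM⟩ : ∃ M : ℝ, M = ((n + 2 : ℕ) : ℝ) := ⟨_, rfl⟩
  have hM2 : M = 2 * g + 1 := by
    rw [hM]
    exact_mod_cast hn
  have hMn : M = n + 2 := by
    rw [hM]
    push_cast
    ring
  have hM0 : 0 < M := by
    rw [hM2]
    positivity
  obtain ⟨s, hs⟩ : ∃ s : ℝ, s = κ - 2 * M - 2 := ⟨_, rfl⟩
  have hs0 : 0 < s := by
    rw [hs, hM2]
    linarith
  obtain ⟨w2, hw2⟩ : ∃ w2 : ℝ, w2 = wt (finite_two K).toFinset := ⟨_, rfl⟩
  obtain ⟨ε, hε⟩ : ∃ ε : ℝ, ε = s * M / (2 + s) := ⟨_, rfl⟩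
  have h2s : (0 : ℝ) < 2 + s := by linarith
  have hε0 : 0 < ε := by
    rw [hε]
    positivity
  have hεs : (2 + s) * ε = s * M := by
    rw [hε]
    field_simp
  obtain ⟨C₀, hC₀⟩ : ∃ C₀ : ℝ, C₀ = (Real.log c - c₁) / (2 + s) - w2 := ⟨_, rfl⟩
  have hC : (2 + s) * (w2 + C₀) + c₁ = Real.log c := by
    rw [hC₀]
    field_simp
    ring
  refine ⟨ε, C₀, hε0, fun l hl hinj h d hd => ?_⟩
  have he := cfg_inj hl hinj
  have h1 := hc₁ (cfg l) he d hd
  rw [sum_cfg, ← hM] at h1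
  have h2 := bad_low hg hn hl hinj hd
  rw [← hw2] at h2
  obtain ⟨H, hH⟩ : ∃ H : ℝ, H = ∑ i, logHeight₁ (l i) := ⟨_, rfl⟩
  obtain ⟨b, hb⟩ : ∃ b : ℝ, b = Real.log (badNorm g (pol d (cfg l))) := ⟨_, rfl⟩
  obtain ⟨N, hN⟩ : ∃ N : ℝ, N = nn (∅ : Set (HeightOneSpectrum (𝓞 K))) (P3 K) l := ⟨_, rfl⟩
  rw [← hH, ← hb] at h1
  rw [← hb, ← hN] at h2
  have e3 : ((3 : ℕ) : ℝ) + n - 1 - ε = M - ε := by
    rw [hMn]
    push_cast
    ring
  rw [← hH, ← hN, e3] at h
  have h3 : (M - ε) * H ≤ b + (w2 + C₀) := by linarith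
  have h4 : (2 + s) * ((M - ε) * H) ≤ (2 + s) * (b + (w2 + C₀)) :=
    mul_le_mul_of_nonneg_left h3 h2s.le
  have e4 : (2 + s) * ((M - ε) * H) = 2 * M * H := by
    have : (2 + s) * ((M - ε) * H) = (2 + s) * M * H - (2 + s) * ε * H := by ring
    rw [this, hεs]
    ring
  rw [e4] at h4
  have h5 : Real.log (discNorm g (pol d (cfg l))) ≤ Real.log c + κ * b := by
    have e5 : Real.log c + κ * b = 2 * M * b + (2 + s) * (b + (w2 + C₀)) + c₁ := by
      rw [← hC, hs]
      ring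
    rw [e5]
    linarith
  have hb0 := badNorm_pos hn hd he
  have hd0 := discNorm_pos hn hd he
  rw [← Real.log_le_log_iff hd0 (by positivity), Real.log_mul hc.ne' (by positivity),
    Real.log_rpow hb0, ← hb]
  exact h5

/-- **below the threshold** -/
theorem unif_sub (hg : 2 ≤ g) (hn : n + 2 = 2 * g + 1) (κ c : ℝ) (hκ0 : 0 ≤ κ)
    (hκ : κ < 4 * g + 4) (hc : 0 < c) : ∃ ε C₀ : ℝ, 0 < ε ∧ ∀ l : Fin n → K,
      (∀ i, l i ≠ 0 ∧ l i ≠ 1) → Function.Injective l →
      (((3 : ℕ) : ℝ) + n - 1 - ε) * ∑ i, logHeight₁ (l i) ≤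
        nn (∅ : Set (HeightOneSpectrum (𝓞 K))) (P3 K) l + C₀ →
      ∃ d : K, d ≠ 0 ∧ c * (badNorm g (pol d (cfg l)) : ℝ) ^ κ <
        (discNorm g (pol d (cfg l)) : ℝ) := by
  obtain ⟨c₂, hc₂, htw⟩ := exists_bad_twist (g := g) K hg hn
  obtain ⟨M, hM⟩ : ∃ M : ℝ, M = ((n + 2 : ℕ) : ℝ) := ⟨_, rfl⟩
  have hM2 : M = 2 * g + 1 := by
    rw [hM]
    exact_mod_cast hn
  have hMn : M = n + 2 := by
    rw [hM]
    push_cast
    ring
  have hM0 : 0 < M := by
    rw [hM2]
    positivity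
  obtain ⟨s, hs⟩ : ∃ s : ℝ, s = 2 * M + 2 - κ := ⟨_, rfl⟩
  have hs0 : 0 < s := by
    rw [hs, hM2]
    linarith
  obtain ⟨D, hD⟩ : ∃ D : ℝ, D = 2 * M + 2 := ⟨_, rfl⟩
  have hD0 : 0 < D := by
    rw [hD]
    positivity
  obtain ⟨ε, hε⟩ : ∃ ε : ℝ, ε = s * M / (4 * D) := ⟨_, rfl⟩
  have hε0 : 0 < ε := by
    rw [hε]
    positivity
  have hεD : D * (2 * ε) = s * M / 2 := by
    rw [hε]
    field_simp
    ring
  obtain ⟨C₀, hC₀⟩ : ∃ C₀ : ℝ,
    C₀ = -(|Real.log c| + 2 * κ * c₂ + 2 * D * c₂ + 1) / (2 * D) := ⟨_, rfl⟩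
  have hC : D * (2 * C₀) = -(|Real.log c| + 2 * κ * c₂ + 2 * D * c₂ + 1) := by
    rw [hC₀]
    field_simp
  refine ⟨ε, C₀, hε0, fun l hl hinj h => ?_⟩
  have he := cfg_inj hl hinj
  obtain ⟨d, W, hd, hWV, hW1, hW2, hW3⟩ := htw (cfg l) he
  refine ⟨d, hd, ?_⟩
  rw [sum_cfg, ← hM] at hW1 hW3
  obtain ⟨H, hH⟩ : ∃ H : ℝ, H = ∑ i, logHeight₁ (l i) := ⟨_, rfl⟩
  obtain ⟨b, hb⟩ : ∃ b : ℝ, b = Real.log (badNorm g (pol d (cfg l))) := ⟨_, rfl⟩
  have hH0 : 0 ≤ H := by
    rw [hH]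
    exact Finset.sum_nonneg fun i _ => zero_le_logHeight₁ _
  have hf : ∀ i j, form (P3 K j) (pt (l i)) ≠ 0 := fun i j =>
    (P3_form (l i) j).2 ⟨fun _ => (hl i).1, fun _ => (hl i).2⟩
  have h1 : nn (∅ : Set (HeightOneSpectrum (𝓞 K))) (P3 K) l ≤ W := by
    rw [nn_eq _ _ (bd_fin _ _ hf hinj)]
    refine hWV _ fun v hv => ?_
    rw [Set.Finite.mem_toFinset] at hv
    exact Lv_of_bd hl hinj hv
  have e3 : ((3 : ℕ) : ℝ) + n - 1 - ε = M - ε := by
    rw [hMn]
    push_cast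
    ring
  rw [← hH, e3] at h
  rw [← hH] at hW1 hW3
  rw [← hb] at hW2
  rw [← hD] at hW3
  have h2 : (M - ε) * H ≤ W + C₀ := by linarith
  have hb0 := badNorm_pos hn hd he
  have hd0 := discNorm_pos hn hd he
  by_contra hcon
  rw [not_lt, ← Real.log_le_log_iff hd0 (by positivity), Real.log_mul hc.ne' (by positivity),
    Real.log_rpow hb0, ← hb] at hcon
  have h3 : κ * b ≤ κ * (M * H + 2 * c₂) := mul_le_mul_of_nonneg_left (by linarith) hκ0
  have h4 : D * (2 * ((M - ε) * H - C₀) - M * H - 2 * c₂) ≤ D * (2 * W - M * H - 2 * c₂) :=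
    mul_le_mul_of_nonneg_left (by linarith) hD0.le
  have e5 : D * (2 * ((M - ε) * H - C₀) - M * H - 2 * c₂) =
      D * M * H - D * (2 * ε) * H - D * (2 * C₀) - 2 * D * c₂ := by ring
  rw [e5, hεD, hC] at h4
  have e6 : κ = D - s := by
    rw [hs, hD]
    ring
  have h5 : D * M * H - s * M / 2 * H + (|Real.log c| + 2 * κ * c₂ + 2 * D * c₂ + 1) -
      2 * D * c₂ ≤ Real.log c + κ * (M * H + 2 * c₂) := by linarith
  have h6 : κ * (M * H + 2 * c₂) = D * M * H - s * M * H + 2 * κ * c₂ := by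
    have : κ * (M * H + 2 * c₂) = κ * (M * H) + 2 * κ * c₂ := by ring
    rw [this]
    have h7 : κ * (M * H) = (D - s) * (M * H) := by rw [← e6]
    rw [h7]
    ring
  rw [h6] at h5
  have h7 := le_abs_self (Real.log c)
  have h8 : 0 ≤ s * M / 2 * H := by positivity
  have h9 : s * M * H = 2 * (s * M / 2 * H) := by ring
  linarith

variable {K}

open Classical in
/-- the truncated counting function of `0 + 1 + ∞` -/
theorem counting_P3 {x : K} (h0 : x ≠ 0) (h1 : x ≠ 1) :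
    (∑ᶠ v : HeightOneSpectrum (𝓞 K), if v.valuation K x ≠ 1 ∨ v.valuation K (1 - x) ≠ 1 then
      Real.log (Ideal.absNorm v.asIdeal) else 0) =
      counting (∅ : Set (HeightOneSpectrum (𝓞 K))) (P3 K) ![x, 1] := by
  have hf : ∀ j, form (P3 K j) (pt x) ≠ 0 := fun j => (P3_form x j).2 ⟨fun _ => h0, fun _ => h1⟩
  have hlt : ∀ (v : HeightOneSpectrum (𝓞 K)) (y z : K),
      fv v y < fv v z ↔ v.valuation K y < v.valuation K z := Pool.Agent.Y728.AK.fv_lt_iff
  unfold counting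
  refine finsum_congr fun v => ?_
  rw [finsum_eq_if]
  have e1 : 0 < localHeight v (P3 K 0) (pt x) ↔ v.valuation K x < 1 := by
    rw [localHeight_pos_iff v (hf 0)]
    show fv v ((0 : K) * 1 - 1 * x) < max (fv v 0) (fv v 1) * max (fv v x) (fv v 1) ↔ _
    have e : (0 : K) * 1 - 1 * x = -x := by ring
    rw [e, map_neg_eq_map, map_zero, map_one, max_eq_right zero_le_one, one_mul]
    have h2 : fv v x < 1 ↔ v.valuation K x < 1 := by
      have := hlt v x 1
      rwa [map_one, map_one] at this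
    rw [← h2]
    constructor
    · intro h
      rcases lt_max_iff.1 h with h | h
      · exact absurd h (lt_irrefl _)
      · exact h
    · intro h
      exact lt_of_lt_of_le h (le_max_right _ _)
  have e2 : 0 < localHeight v (P3 K 2) (pt x) ↔ 1 < v.valuation K x := by
    rw [localHeight_pos_iff v (hf 2)]
    show fv v ((1 : K) * 1 - 0 * x) < max (fv v 1) (fv v 0) * max (fv v x) (fv v 1) ↔ _
    have e : (1 : K) * 1 - 0 * x = 1 := by ring
    rw [e, map_zero, map_one, max_eq_left zero_le_one, one_mul]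
    have h2 : 1 < fv v x ↔ 1 < v.valuation K x := by
      have := hlt v 1 x
      rwa [map_one, map_one] at this
    rw [← h2]
    constructor
    · intro h
      rcases lt_max_iff.1 h with h | h
      · exact h
      · exact absurd h (lt_irrefl _)
    · intro h
      exact lt_of_lt_of_le h (le_max_left _ _)
  have e3 : 0 < localHeight v (P3 K 1) (pt x) ↔
      v.valuation K (1 - x) < max (v.valuation K x) 1 := by
    rw [localHeight_pos_iff v (hf 1)]
    show fv v ((1 : K) * 1 - 1 * x) < max (fv v 1) (fv v 1) * max (fv v x) (fv v 1) ↔ _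
    have e : (1 : K) * 1 - 1 * x = 1 - x := by ring
    rw [e, map_one, max_self, one_mul, lt_max_iff, lt_max_iff, hlt]
    have h2 : fv v (1 - x) < 1 ↔ v.valuation K (1 - x) < 1 := by
      have := hlt v (1 - x) 1
      rwa [map_one, map_one] at this
    rw [h2]
  have hle : v.valuation K (1 - x) ≤ max (v.valuation K x) 1 := by
    have h2 := v.valuation K |>.map_sub 1 x
    rw [map_one, max_comm] at h2
    exact h2
  have h2 : (v.valuation K x ≠ 1 ∨ v.valuation K (1 - x) ≠ 1) ↔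
      (v ∈ {v : HeightOneSpectrum (𝓞 K) | v ∉ (∅ : Set (HeightOneSpectrum (𝓞 K))) ∧
        0 < ∑ i, localHeight v (P3 K i) ![x, 1]}) := by
    have h3 : (∃ j, 0 < localHeight v (P3 K j) (pt x)) ↔
        0 < ∑ i, localHeight v (P3 K i) ![x, 1] := by
      constructor
      · rintro ⟨j, hj⟩
        exact Finset.sum_pos' (fun i _ => localHeight_nonneg v (hf i)) ⟨j, Finset.mem_univ _, hj⟩
      · intro h
        by_contra hcon
        push Not at hcon
        have h4 : ∑ i, localHeight v (P3 K i) ![x, 1] ≤ 0 :=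
          Finset.sum_nonpos fun i _ => hcon i
        linarith
    constructor
    · intro h
      refine ⟨Set.notMem_empty v, h3.1 ?_⟩
      rcases lt_trichotomy (v.valuation K x) 1 with h4 | h4 | h4
      · exact ⟨0, e1.2 h4⟩
      · refine ⟨1, e3.2 ?_⟩
        rcases h with h | h
        · exact absurd h4 h
        · rw [h4, max_self] at hle ⊢
          exact lt_of_le_of_ne hle h
      · exact ⟨2, e2.2 h4⟩
    · rintro ⟨-, h⟩
      obtain ⟨j, hj⟩ := h3.2 h
      by_contra hcon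
      push Not at hcon
      fin_cases j
      · have := e1.1 hj
        rw [hcon.1] at this
        exact lt_irrefl _ this
      · have := e3.1 hj
        rw [hcon.1, hcon.2, max_self] at this
        exact lt_irrefl _ this
      · have := e2.1 hj
        rw [hcon.1] at this
        exact lt_irrefl _ this
  exact if_congr h2 rfl rfl

end Pool.Agent.Y728.HY
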