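import Pool.Agent.Y728.HY.Lv

set_option autoImplicit false

/-!
# Hyperelliptic curves with rational Weierstrass points: the primes at which exactly one pair of
Weierstrass points meets (helper728)
-/

namespace Pool.Agent.Y728.HY

open Finset NumberField IsDedekindDomain WithZero Height Pool.Agent.W318 Pool.Agent.TH905.HS
open Pool.Agent.H691R3 (fv Nv two_le_Nv)
open Pool.Agent.H951R3.V (ell ell_pos)
open Pool.Agent.Y728.MN (lamF lamF_nonneg wt)

variable {K : Type} [Field K] [NumberField K] {m : ℕ}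

theorem det_abs (v : HeightOneSpectrum (𝓞 K)) (e : Fin m → K) {c : Fin m → ℤ}
    {n : Fin m → Fin m → ℤ}
    (hn : ∀ i j, i ≠ j → absW v (e i - e j) = 2 ^ (c i + c j - n i j))
    (i j : Fin (m + 1)) (hij : i ≠ j)
    (h0 : ∀ i' j' : Fin m, i = i'.succ → j = j'.succ → n i' j' = 0)
    (h1 : ∀ j' : Fin m, i = 0 → j = j'.succ → c j' = 0)
    (h2 : ∀ i' : Fin m, i = i'.succ → j = 0 → c i' = 0) :
    absW v (al K m i * be e j - al K m j * be e i) =
      2 ^ ((Fin.cons 0 c : Fin (m + 1) → ℤ) i + (Fin.cons 0 c : Fin (m + 1) → ℤ) j) := by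
  rw [det_eq]
  revert hij h0 h1 h2
  refine Fin.cases ?_ (fun i' => ?_) i <;> refine Fin.cases ?_ (fun j' => ?_) j <;>
    intro hij h0 h1 h2
  · exact absurd rfl hij
  · simp only [Fin.cases_zero, Fin.cases_succ, Fin.cons_zero, Fin.cons_succ, map_neg_eq_map,
      map_one]
    rw [h1 j' rfl rfl]
    norm_num
  · simp only [Fin.cases_zero, Fin.cases_succ, Fin.cons_zero, Fin.cons_succ, map_one]
    rw [h2 i' rfl rfl]
    norm_num
  · simp only [Fin.cases_succ, Fin.cons_succ]
    have h3 : i' ≠ j' := fun h => hij (by rw [h])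
    rw [hn i' j' h3, h0 i' j' rfl rfl, sub_zero]

/-- **the lower bound** at a prime at which exactly one pair of Weierstrass points meets, to the
first order -/
theorem minExp_low {g : ℕ} (hg : 2 ≤ g) (hm : m = 2 * g + 1) {d : K} (hd : d ≠ 0)
    {e : Fin m → K} (he : Function.Injective e) (v : HeightOneSpectrum (𝓞 K))
    (h2 : v.valuation K (2 : K) = 1) (hs : Lv v e = 2 * ell v)
    (hd0 : (∃ i, 1 < fv v (e i)) → v.valuation K d = 1)
    (hd1 : (¬ ∃ i, 1 < fv v (e i)) → v.valuation K d = exp (-1)) :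
    (2 * m + 2 : ℝ) ≤ minExp g (pol d e) v := by
  classical
  obtain ⟨c, n, hc0, hn0, hc1, hc2, hn1, hn2, hn3, hL⟩ := Lv_exp v he
  have hdsum := disc_sum v hc1 hn1
  obtain ⟨N, hN⟩ : ∃ N : ℤ, N = ∑ i, ∑ j ∈ univ.erase i, n i j + 2 * ∑ i, c i := ⟨_, rfl⟩
  rw [← hN] at hL hdsum
  have hN2 : N = 2 := by
    rw [hs] at hL
    have h3 : (N : ℝ) = 2 := (mul_right_cancel₀ (ell_pos v).ne' hL).symm
    exact_mod_cast h3
  have hnn : 0 ≤ ∑ i, ∑ j ∈ univ.erase i, n i j :=
    Finset.sum_nonneg fun i _ => Finset.sum_nonneg fun j _ => hn0 i j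
  have hcc : 0 ≤ ∑ i, c i := Finset.sum_nonneg fun i _ => hc0 i
  have hlog2 : 0 < Real.log 2 := Real.log_pos one_lt_two
  have hNv : 1 < Nv v := by linarith [two_le_Nv v]
  have hcl : ∑ i, Real.log (max (absW v (e i)) 1) = (∑ i, (c i : ℝ)) * Real.log 2 := by
    rw [Finset.sum_mul]
    refine Finset.sum_congr rfl fun i _ => ?_
    rw [hc1 i, Real.log_zpow]
  have hpole : ∀ i, 1 < fv v (e i) ↔ c i ≠ 0 := by
    intro i
    have h3 := hc2 i
    constructor
    · intro h4 h5
      rw [h5, zpow_zero] at h3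
      have : fv v (e i) ≤ 1 := by rw [← h3]; exact le_max_left _ _
      linarith
    · intro h4
      have h5 : 0 < c i := lt_of_le_of_ne (hc0 i) (Ne.symm h4)
      have h6 : (1 : ℝ) < Nv v ^ c i := one_lt_zpow₀ hNv h5
      rw [← h3] at h6
      rcases lt_max_iff.1 h6 with h7 | h7
      · exact h7
      · exact absurd h7 (lt_irrefl _)
  have hfinal : ∀ (i₀ j₀ : Fin (m + 1)) (kd : ℤ), v.valuation K d = exp kd →
      (∀ i j, i ≠ j → ¬(i = i₀ ∧ j = j₀) → ¬(i = j₀ ∧ j = i₀) →
        absW v (al K m i * be e j - al K m j * be e i) =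
          2 ^ ((Fin.cons 0 c : Fin (m + 1) → ℤ) i + (Fin.cons 0 c : Fin (m + 1) → ℤ) j)) →
      Odd (kd + ∑ i, c i) → (2 * m + 2 : ℝ) ≤ minExp g (pol d e) v := by
    intro i₀ j₀ kd hkd hsim hodd
    have e1 : ∑ i, (Fin.cons 0 c : Fin (m + 1) → ℤ) i = ∑ i, c i := by
      rw [Fin.sum_univ_succ]
      simp
    have e2 : ∑ i, ((Fin.cons 0 c : Fin (m + 1) → ℤ) i : ℝ) = ∑ i, (c i : ℝ) := by
      rw [Fin.sum_univ_succ]
      simp
    have h := minExp_low_k hg hm hd he v h2 (Fin.cons 0 c : Fin (m + 1) → ℤ) i₀ j₀ hsim hkd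
      (by rw [e1]; exact hodd)
    rw [e2] at h
    rw [hcl, hN2] at hdsum
    have h3 : (2 * m + 2 : ℝ) * Real.log 2 ≤ (minExp g (pol d e) v : ℝ) * Real.log 2 := by
      push_cast at hdsum
      nlinarith
    exact le_of_mul_le_mul_right h3 hlog2
  by_cases hp : ∃ i, 1 < fv v (e i)
  · obtain ⟨i₀, hi₀⟩ := id hp
    have hc₀ : c i₀ ≠ 0 := (hpole i₀).1 hi₀
    have hle : c i₀ ≤ ∑ i, c i := Finset.single_le_sum (fun i _ => hc0 i) (mem_univ i₀)
    have hc1' : 1 ≤ c i₀ := by
      have := hc0 i₀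
      omega
    have hsc : ∑ i, c i = 1 := by omega
    have hsn : ∑ i, ∑ j ∈ univ.erase i, n i j = 0 := by omega
    have hnz : ∀ i j, i ≠ j → n i j = 0 := by
      intro i j hij
      have h3 := (Finset.sum_eq_zero_iff_of_nonneg (fun i _ =>
        Finset.sum_nonneg fun j _ => hn0 i j)).1 hsn i (mem_univ i)
      exact (Finset.sum_eq_zero_iff_of_nonneg (fun j _ => hn0 i j)).1 h3 j
        (Finset.mem_erase.2 ⟨hij.symm, mem_univ j⟩)
    have hcz : ∀ i, i ≠ i₀ → c i = 0 := by
      intro i hi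
      have h3 : c i₀ + ∑ j ∈ univ.erase i₀, c j = 1 := by
        rw [Finset.add_sum_erase univ c (mem_univ i₀)]
        exact hsc
      have h4 : 0 ≤ ∑ j ∈ univ.erase i₀, c j := Finset.sum_nonneg fun j _ => hc0 j
      have h5 : ∑ j ∈ univ.erase i₀, c j = 0 := by omega
      exact (Finset.sum_eq_zero_iff_of_nonneg (fun j _ => hc0 j)).1 h5 i
        (Finset.mem_erase.2 ⟨hi, mem_univ i⟩)
    refine hfinal 0 i₀.succ 0 (by rw [hd0 hp, exp_zero]) (fun i j hij hs1 hs2 => ?_)
      (by rw [hsc]; exact ⟨0, by norm_num⟩)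
    refine det_abs v e hn1 i j hij (fun i' j' hi hj => ?_) (fun j' hi hj => ?_)
      (fun i' hi hj => ?_)
    · exact hnz i' j' fun h => hij (by rw [hi, hj, h])
    · exact hcz j' fun h => hs1 ⟨hi, by rw [hj, h]⟩
    · exact hcz i' fun h => hs2 ⟨by rw [hi, h], hj⟩
  · have hcz : ∀ i, c i = 0 := by
      intro i
      by_contra h
      exact hp ⟨i, (hpole i).2 h⟩
    have hsc : ∑ i, c i = 0 := Finset.sum_eq_zero fun i _ => hcz i
    have hsn : ∑ i, ∑ j ∈ univ.erase i, n i j = 2 := by omega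
    obtain ⟨i₀, j₀, hij₀, hn₀⟩ : ∃ i₀ j₀, i₀ ≠ j₀ ∧ n i₀ j₀ ≠ 0 := by
      by_contra hcon
      push Not at hcon
      have : ∑ i, ∑ j ∈ univ.erase i, n i j = 0 :=
        Finset.sum_eq_zero fun i _ => Finset.sum_eq_zero fun j hj =>
          hcon i j (Finset.ne_of_mem_erase hj).symm
      omega
    have h1a : 1 ≤ n i₀ j₀ := by
      have := hn0 i₀ j₀
      omega
    have h1b : 1 ≤ n j₀ i₀ := by
      rw [hn3]
      exact h1a
    have hrow : ∀ i, 0 ≤ ∑ j ∈ univ.erase i, n i j := fun i =>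
      Finset.sum_nonneg fun j _ => hn0 i j
    -- the sum over the other pairs vanishes
    have hnz : ∀ i j, i ≠ j → ¬(i = i₀ ∧ j = j₀) → ¬(i = j₀ ∧ j = i₀) → n i j = 0 := by
      intro i j hij hs1 hs2
      by_contra hne
      have h1c : 1 ≤ n i j := by
        have := hn0 i j
        omega
      -- three different entries
      have hT : ∑ p ∈ ({(i₀, j₀), (j₀, i₀), (i, j)} : Finset (Fin m × Fin m)), n p.1 p.2 ≤
          ∑ i, ∑ j ∈ univ.erase i, n i j := by
        rw [← Finset.sum_finset_product' (univ.filter fun p : Fin m × Fin m => p.1 ≠ p.2) univ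
          (fun i => univ.erase i) (by
            intro p
            simp only [mem_filter, mem_univ, true_and, Finset.mem_erase, and_true]
            exact ne_comm)]
        refine Finset.sum_le_sum_of_subset_of_nonneg ?_ fun p _ _ => hn0 _ _
        intro p hp
        simp only [Finset.mem_insert, Finset.mem_singleton] at hp
        rw [mem_filter]
        refine ⟨mem_univ _, ?_⟩
        rcases hp with rfl | rfl | rfl
        · exact hij₀
        · exact hij₀.symm
        · exact hij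
      rw [hsn, Finset.sum_insert, Finset.sum_insert, Finset.sum_singleton] at hT
      · linarith
      · rw [Finset.mem_singleton, Prod.mk.injEq]
        exact fun h => hs2 ⟨h.1.symm, h.2.symm⟩
      · rw [Finset.mem_insert, Finset.mem_singleton, Prod.mk.injEq, Prod.mk.injEq, not_or]
        exact ⟨fun h => hij₀ h.1, fun h => hs1 ⟨h.1.symm, h.2.symm⟩⟩
    refine hfinal i₀.succ j₀.succ (-1) (hd1 hp) (fun i j hij hs1 hs2 => ?_)
      (by rw [hsc]; exact ⟨-1, by norm_num⟩)
    refine det_abs v e hn1 i j hij (fun i' j' hi hj => ?_) (fun j' _ _ => hcz j')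
      (fun i' _ _ => hcz i')
    refine hnz i' j' (fun h => hij (by rw [hi, hj, h])) (fun h => hs1 ⟨?_, ?_⟩)
      (fun h => hs2 ⟨?_, ?_⟩)
    · rw [hi, h.1]
    · rw [hj, h.2]
    · rw [hi, h.1]
    · rw [hj, h.2]

/-- primes where the local heights are not all zero are bad for every twist -/
theorem bad_of_Lv {g : ℕ} (hg : 2 ≤ g) (hm : m = 2 * g + 1) {d : K} (hd : d ≠ 0)
    {e : Fin m → K} (he : Function.Injective e) (v : HeightOneSpectrum (𝓞 K))
    (h2 : v.valuation K (2 : K) = 1) {z o : Fin m} (hz : e z = 0) (ho : e o = 1)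
    (h0 : minExp g (pol d e) v = 0) : Lv v e = 0 := by
  classical
  have hzo : o ≠ z := by
    intro h
    rw [h, hz] at ho
    exact zero_ne_one ho
  have heq : ∀ i j, i ≠ j → absW v (e i - e j) = 1 := by
    intro i j hij
    have h := equal_of_good hg hm hd he v h2 h0 i j o z hij hzo
    rw [ho, hz, sub_zero, map_one, ← exp_zero] at h
    rw [absW_exp v h, zpow_zero]
  obtain ⟨c, n, hc0, hn0, hc1, hc2, hn1, hn2, hn3, hL⟩ := Lv_exp v he
  have hcz : ∀ i, c i = 0 := by
    intro i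
    have h3 : absW v (e i) ≤ 1 := by
      by_cases h : i = z
      · rw [h, hz, map_zero]
        exact zero_le_one
      · have h4 := heq i z h
        rw [hz, sub_zero] at h4
        exact h4.le
    have h4 := hc1 i
    rw [max_eq_right h3] at h4
    have h5 : (2 : ℝ) ^ (0 : ℤ) = 2 ^ c i := by rw [zpow_zero]; exact h4
    exact ((zpow_right_inj₀ (by norm_num) (by norm_num)).1 h5).symm
  have hnz : ∀ i j, i ≠ j → n i j = 0 := by
    intro i j hij
    have h3 := hn1 i j hij
    rw [heq i j hij, hcz, hcz] at h3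
    have h5 : (2 : ℝ) ^ (0 : ℤ) = 2 ^ (0 + 0 - n i j) := by rw [zpow_zero]; exact h3
    have h6 := (zpow_right_inj₀ (by norm_num) (by norm_num)).1 h5
    omega
  have h3 : ∑ i, ∑ j ∈ univ.erase i, n i j = 0 :=
    Finset.sum_eq_zero fun i _ => Finset.sum_eq_zero fun j hj =>
      hnz i j (Finset.ne_of_mem_erase hj).symm
  have h4 : ∑ i, c i = 0 := Finset.sum_eq_zero fun i _ => hcz i
  rw [hL, h3, h4]
  norm_num

end Pool.Agent.Y728.HY
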