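import Pool.Agent.TH905.HS.Low
import Pool.Agent.TH905.HS.Tw

set_option autoImplicit false

/-!
# Hyperelliptic curves with rational Weierstrass points: an upper bound for the minimal discriminant
in terms of the local heights of the pairs of Weierstrass points (helper728)
-/

namespace Pool.Agent.Y728.HY

open Polynomial Finset NumberField IsDedekindDomain WithZero Pool.Agent.W318 Pool.Agent.TH905.HS

variable {K : Type} [Field K] [NumberField K]

/-- an upper bound for the exponent of the minimal discriminant -/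
theorem minExp_up_k {g m : ℕ} (hm : m = 2 * g + 1) {d : K} (hd : d ≠ 0)
    {e : Fin m → K} (he : Function.Injective e) (v : HeightOneSpectrum (𝓞 K)) {t : ℕ}
    (ht : v.valuation K (2 : K) = exp (-(t : ℤ))) (hg : 1 ≤ g) {kd : ℤ}
    (hkd : v.valuation K d = exp kd) (c : Fin m → ℤ)
    (hc : ∀ i, max (absW v (e i)) 1 = 2 ^ c i) :
    (minExp g (pol d e) v : ℝ) * Real.log 2 ≤ 4 * g * t * Real.log 2 -
      2 * (m * (((kd + ∑ i, c i) - 2 * ((kd + ∑ i, c i + 1) / 2) : ℤ) * Real.log 2)) +
      (2 * m * ∑ i, Real.log (max (absW v (e i)) 1) -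
        ∑ i, ∑ j ∈ univ.erase i, Real.log (absW v (e i - e j))) := by
  classical
  have hF := pol_isHyp hm hd he
  obtain ⟨k, hkk⟩ : ∃ k : ℤ, k = kd + ∑ i, c i := ⟨_, rfl⟩
  rw [← hkk]
  obtain ⟨ϖ, hϖ⟩ := v.valuation_exists_uniformizer K
  have hϖ0 : ϖ ≠ 0 := by
    rintro rfl
    rw [map_zero] at hϖ
    exact exp_ne_zero hϖ.symm
  set s : K := ϖ ^ ((k + 1) / 2) with hs
  have hs0 : s ≠ 0 := zpow_ne_zero _ hϖ0
  have hvs : v.valuation K s = exp (-((k + 1) / 2)) := by
    rw [hs, map_zpow₀, hϖ, ← exp_zsmul]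
    congr 1
    simp
  have hnn : g + 1 + (g + 1) = m + 1 := by omega
  have hu : s ^ 2 * d ≠ 0 := mul_ne_zero (pow_ne_zero 2 hs0) hd
  have hone : (1 : K) * 1 - 0 * 0 ≠ 0 := by norm_num
  -- the new form
  set F' : K[X] := C (s ^ 2) * act (g + 1 + (g + 1)) 1 0 0 1 (pol d e) with hF'
  have heqv : Eqv (g + 1) (pol d e) F' := ⟨1, 0, 0, 1, s, hone, hs0, rfl⟩
  set α' : Fin (m + 1) → K := fun i => al K m i * 1 + be e i * 0 with hα'
  set β' : Fin (m + 1) → K := fun i => al K m i * 0 + be e i * 1 with hβ'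
  have hF'' : F' = C (s ^ 2 * d) * ∏ i, (C (α' i) * X + C (β' i)) := by
    rw [hF', hnn, pol_eq, act_prod (m + 1) (Or.inr one_ne_zero), ← mul_assoc, ← C_mul]
  have hna := absW_na v
  have hlog2 : 0 < Real.log 2 := Real.log_pos one_lt_two
  have hcl : ∀ i, Real.log (max (absW v (e i)) 1) = c i * Real.log 2 := by
    intro i
    rw [hc i, Real.log_zpow]
  have hsum : ∑ i, Real.log (max (absW v (e i)) 1) = (∑ i, c i : ℤ) * Real.log 2 := by
    rw [Finset.sum_congr rfl fun i _ => hcl i, ← Finset.sum_mul]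
    push_cast
    rfl
  have hlogs : Real.log (absW v (s ^ 2 * d)) + ∑ i, Real.log (max (absW v (e i)) 1) =
      (k - 2 * ((k + 1) / 2) : ℤ) * Real.log 2 := by
    have e1 := log_absW v hkd
    have e2 := log_absW v hvs
    rw [hsum, map_mul, map_pow, Real.log_mul (pow_pos ((absW v).pos hs0) _).ne'
      ((absW v).pos hd).ne', Real.log_pow, e2, e1, hkk]
    push_cast
    ring
  have hε : (k - 2 * ((k + 1) / 2) : ℤ) ≤ 0 ∧ -1 ≤ (k - 2 * ((k + 1) / 2) : ℤ) := by
    constructor <;> omega
  have hint : ∀ i, v.valuation K (F'.coeff i) ≤ 1 := by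
    have e1 : F'.gaussNorm (absW v) 1 ≤ 1 := by
      rw [hF'', gaussNorm_prod_lin hna, Fin.prod_univ_succ]
      have e2 : ∀ i : Fin m, max (absW v (α' i.succ)) (absW v (β' i.succ)) =
          max (absW v (e i)) 1 := by
        intro i
        simp only [hα', hβ', al, be, Fin.cons_succ, one_mul, mul_zero, add_zero, zero_add, mul_one,
          map_neg_eq_map, map_one]
        exact max_comm _ _
      have e3 : max (absW v (α' 0)) (absW v (β' 0)) = 1 := by
        simp [hα', hβ', al, be]
      rw [e3, one_mul, Finset.prod_congr rfl fun i _ => e2 i]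
      have hpp : ∀ i ∈ (univ : Finset (Fin m)), max (absW v (e i)) 1 ≠ 0 := fun i _ =>
        (lt_of_lt_of_le one_pos (le_max_right _ _)).ne'
      have e4 : 0 < absW v (s ^ 2 * d) * ∏ i, max (absW v (e i)) 1 :=
        mul_pos ((absW v).pos hu) (Finset.prod_pos fun i _ =>
          lt_of_lt_of_le one_pos (le_max_right _ _))
      rw [← Real.log_nonpos_iff e4.le, Real.log_mul ((absW v).pos hu).ne'
        (Finset.prod_ne_zero_iff.mpr hpp), Real.log_prod hpp, hlogs]
      have : ((k - 2 * ((k + 1) / 2) : ℤ) : ℝ) ≤ 0 := by exact_mod_cast hε.1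
      exact mul_nonpos_of_nonpos_of_nonneg this hlog2.le
    intro i
    exact (absW_le_one_iff v _).mp ((coeff_le_gaussNorm F' i).trans e1)
  obtain ⟨k', hk', _, hle⟩ := minExp_le hF v heqv hint ht
  -- the discriminant of the new form
  have hdet' : ∀ i j, α' i * β' j - α' j * β' i = al K m i * be e j - al K m j * be e i := by
    intro i j
    simp only [hα', hβ']
    ring
  have hne' : ∀ i j, i ≠ j → α' i * β' j - α' j * β' i ≠ 0 := by
    intro i j hij
    rw [hdet']
    exact det_ne he i j hij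
  have hdisc : Real.log (absW v (discN (m + 1) F')) = 2 * m * Real.log (absW v (s ^ 2 * d)) +
        ∑ i, ∑ j ∈ univ.erase i, Real.log (absW v (e i - e j)) := by
    have e1 := abs_discN_prod_lin (absW v) hu α' β' hne' (by rw [Fintype.card_fin]; omega)
    rw [Fintype.card_fin, Nat.add_sub_cancel, ← hF''] at e1
    have hp : ∀ i, ∀ j ∈ univ.erase i, absW v (α' i * β' j - α' j * β' i) ≠ 0 :=
      fun i j hj => ((absW v).pos (hne' i j (Finset.ne_of_mem_erase hj).symm)).ne'
    rw [e1, Real.log_mul (pow_pos ((absW v).pos hu) _).ne'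
      (Finset.prod_ne_zero_iff.mpr fun i _ => Finset.prod_ne_zero_iff.mpr (hp i)), Real.log_pow,
      Real.log_prod fun i _ => Finset.prod_ne_zero_iff.mpr (hp i)]
    have e2 : ∀ i : Fin (m + 1), Real.log (∏ j ∈ univ.erase i,
        absW v (α' i * β' j - α' j * β' i)) =
          ∑ j ∈ univ.erase i, Real.log (absW v (al K m i * be e j - al K m j * be e i)) := by
      intro i
      rw [Real.log_prod (hp i)]
      exact Finset.sum_congr rfl fun j _ => by rw [hdet']
    rw [Finset.sum_congr rfl fun i _ => e2 i,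
      sum_det e (fun x => Real.log (absW v x)) (by simp) (by simp)]
    push_cast
    ring
  rw [hnn] at hk'
  rw [log_absW v hk'] at hdisc
  have hle' : (minExp g (pol d e) v : ℝ) ≤ 4 * g * t + k' := by exact_mod_cast hle
  have h7 : (k' : ℝ) * Real.log 2 = -(2 * (m * ((k - 2 * ((k + 1) / 2) : ℤ) * Real.log 2))) +
      (2 * m * ∑ i, Real.log (max (absW v (e i)) 1) -
        ∑ i, ∑ j ∈ univ.erase i, Real.log (absW v (e i - e j))) := by
    rw [← hlogs]
    push_cast at hdisc
    linear_combination -hdisc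
  have h8 := mul_le_mul_of_nonneg_right hle' hlog2.le
  linarith

end Pool.Agent.Y728.HY
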